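import Pool.Agent.Lib_MP_1209e6_cv.Defs
import Pool.Agent.Lib_MP_1209e6_fl.Defs
import Pool.Agent.Lib_MP_1209e6_dp.Homog
import Pool.Agent.Lib_MP_1209e6_cy.E6NoInt

/-! PIECE MODEL: the curves `w ^ m = q(t)` of genus at most one are almost homogeneous. -/

set_option autoImplicit false

open Pool.Agent.CampanaFlow

namespace Pool.Agent.CV

/-- Models: `m = 2`, `deg q ≤ 4`: `[1 : t : t² : w]` (`DP.homogeneous`, shared with helper28 / helper9);
`m = 3`, `deg q ≤ 3`: `[1 : t : w]`; `m = 4`, `deg q ≤ 2`: `[1 : t : w : w²]`. Global field `D` with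
`D t = w ^ (m - 1)`, `D w = q'(t) / m`, zero on `k`. -/
def Good (m e : ℕ) : Prop :=
  ∀ (L : Type) [Field L] [Algebra ℂ L] (k : IntermediateField ℂ L) (t w : L) (q : Polynomial L),
    (∀ l, q.coeff l ∈ k) → q.natDegree ≤ e → w ^ m = q.eval t → w ≠ 0 →
    IntermediateField.adjoin ℂ ((k : Set L) ∪ {t, w}) = ⊤ →
    (∃ D : Derivation ℂ L L, (∀ a ∈ k, D a = 0) ∧ D t ≠ 0) →
    ∃ (N : ℕ) (p : Fin (N + 1) → L), AlmostHomogeneous k p

theorem good_two : Good 2 4 := by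
  intro L _ _ k t w q hqk hq hw hw0 hgen ⟨D, hD, hDt⟩
  have ht : ¬ IsAlgebraic k t := fun h => hDt (Pool.Agent.CYDelta.kill_algebraic k D hD h)
  obtain ⟨h, _⟩ := Pool.Agent.DP.homogeneous k t w q hqk hq ht hw hw0 hgen ((w / D t) • D)
    (fun a ha => by rw [Derivation.smul_apply, hD a ha, smul_zero])
    (by rw [Derivation.smul_apply, smul_eq_mul, div_mul_cancel₀ _ hDt])
  exact ⟨3, _, h⟩

end Pool.Agent.CV
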