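import Pool.Agent.Lib_MP_1209e6_cv.ModelAux

/-! The curve `w⁴ = q(t)`, `deg q ≤ 2`, is almost homogeneous. -/

set_option autoImplicit false

open Pool.Agent.CampanaFlow

namespace Pool.Agent.CVM

/-- Model `[1 : t : w : w²]`, field `D t = w³`, `D w = q'(t) / 4`. -/
theorem homogeneous4 {L : Type} [Field L] [Algebra ℂ L] (k : IntermediateField ℂ L) (t w : L)
    (q : Polynomial L) (hqk : ∀ n, q.coeff n ∈ k) (hq2 : q.natDegree ≤ 2) (ht : ¬ IsAlgebraic k t)
    (hw : w ^ 4 = q.eval t) (hw0 : w ≠ 0)
    (hgen : IntermediateField.adjoin ℂ ((k : Set L) ∪ {t, w}) = ⊤)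
    (D : Derivation ℂ L L) (hD : ∀ a ∈ k, D a = 0) (hDt : D t = w ^ 3) :
    AlmostHomogeneous k (![1, t, w, w ^ 2] : Fin (3 + 1) → L) ∧
      GlobalField k (![1, t, w, w ^ 2] : Fin (3 + 1) → L) D := by
  have hchar : CharZero L := charZero_of_injective_algebraMap (algebraMap ℂ L).injective
  have ht0 : t ≠ 0 := by
    rintro rfl
    exact ht isAlgebraic_zero
  obtain ⟨a, b, c, ha, hb, hc, hq⟩ : ∃ a b c : L, a ∈ k ∧ b ∈ k ∧ c ∈ k ∧
      w ^ 4 = a + b * t + c * t ^ 2 := by
    refine ⟨q.coeff 0, q.coeff 1, q.coeff 2, hqk _, hqk _, hqk _, ?_⟩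
    rw [hw, Polynomial.eval_eq_sum_range' (n := 3) (by omega)]
    simp [Finset.sum_range_succ]
  have hder : ∀ E : Derivation ℂ L L, (∀ a ∈ k, E a = 0) →
      4 * w ^ 3 * E w = (b + 2 * c * t) * E t := by
    intro E hE
    have h1 := congrArg E hq
    simp only [map_add, Derivation.leibniz, Derivation.leibniz_pow, hE a ha, hE b hb, hE c hc,
      smul_eq_mul, nsmul_eq_mul] at h1
    push_cast at h1
    linear_combination h1
  have hDw : D w = (b + 2 * c * t) / 4 := by
    have h1 := hder D hD
    rw [hDt] at h1
    have h3 : (4 : L) * w ^ 3 ≠ 0 := mul_ne_zero (by norm_num) (pow_ne_zero _ hw0)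
    apply mul_left_cancel₀ h3
    rw [h1]
    field_simp
  have hw20 : w ^ 2 ≠ 0 := pow_ne_zero _ hw0
  have hDw2 : D (w ^ 2) = w * (b + 2 * c * t) / 2 := by
    rw [Derivation.leibniz_pow, hDw]
    simp only [smul_eq_mul, nsmul_eq_mul]
    push_cast
    ring
  have hg : GlobalField k (![1, t, w, w ^ 2] : Fin (3 + 1) → L) D := by
    refine globalField_of k _ D hD fun i j => ?_
    have hmem : ∀ {z : L}, z ∈ k → z ∈ Chart k (![1, t, w, w ^ 2] : Fin (3 + 1) → L) j := fun hz =>
      mem_chart_of_mem k _ j hz
    have hdiv : ∀ l, (![1, t, w, w ^ 2] : Fin (3 + 1) → L) l /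
        (![1, t, w, w ^ 2] : Fin (3 + 1) → L) j ∈
        Chart k (![1, t, w, w ^ 2] : Fin (3 + 1) → L) j := fun l => div_mem_chart k _ l j
    have h2i : (2 : L)⁻¹ ∈ Chart k (![1, t, w, w ^ 2] : Fin (3 + 1) → L) j :=
      hmem (k.inv_mem (natCast_mem k 2))
    have h3 : (3 : L) ∈ Chart k (![1, t, w, w ^ 2] : Fin (3 + 1) → L) j :=
      hmem (natCast_mem k 3)
    have ha' := hmem ha
    have hb' := hmem hb
    have hc' := hmem hc
    have h0 := hdiv 0
    have h1 := hdiv 1
    have h2' := hdiv 2
    have h3' := hdiv 3
    generalize Chart k (![1, t, w, w ^ 2] : Fin (3 + 1) → L) j = A at *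
    fin_cases j
    · simp only [Fin.zero_eta, Fin.isValue, Matrix.cons_val_zero, Matrix.cons_val_one,
        Matrix.cons_val, div_one] at h0 h1 h2' h3' ⊢
      fin_cases i
      · simp
      · simp only [Fin.mk_one, Fin.isValue, Matrix.cons_val_one, Matrix.cons_val_zero]
        rw [hDt]
        exact A.pow_mem h2' 3
      · simp only [Fin.reduceFinMk, Matrix.cons_val]
        have e : D w = 2⁻¹ * (2⁻¹ * b + c * t) := by
          rw [hDw]; field_simp; ring
        rw [e]
        repeat' first
          | assumption
          | apply Subalgebra.add_mem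
          | apply Subalgebra.mul_mem
          | apply Subalgebra.pow_mem
      · simp only [Fin.reduceFinMk, Matrix.cons_val]
        have e : D (w ^ 2) = w * (2⁻¹ * b + c * t) := by
          rw [hDw2]; field_simp
        rw [e]
        repeat' first
          | assumption
          | apply Subalgebra.add_mem
          | apply Subalgebra.mul_mem
          | apply Subalgebra.pow_mem
    · simp only [Fin.mk_one, Fin.isValue, Matrix.cons_val_zero, Matrix.cons_val_one,
        Matrix.cons_val] at h0 h1 h2' h3' ⊢
      fin_cases i
      · simp only [Fin.zero_eta, Fin.isValue, Matrix.cons_val_zero]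
        have e : D (1 / t) = - ((w / t) * (w ^ 2 / t)) := by
          rw [Derivation.leibniz_div, hDt]
          simp only [Derivation.map_one_eq_zero, smul_eq_mul, mul_zero, zero_sub, one_mul]
          field_simp
        rw [e]
        exact A.neg_mem (A.mul_mem h2' h3')
      · simp only [Fin.mk_one, Fin.isValue, Matrix.cons_val_one, Matrix.cons_val_zero]
        rw [div_self ht0]; simp
      · simp only [Fin.reduceFinMk, Matrix.cons_val]
        have e : D (w / t) = - (a * (1 / t) ^ 2 + 3 * 2⁻¹ * 2⁻¹ * b * (1 / t) + 2⁻¹ * c) := by
          rw [Derivation.leibniz_div, hDt, hDw]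
          simp only [smul_eq_mul]
          field_simp
          linear_combination (-16 : L) * hq
        rw [e]
        apply Subalgebra.neg_mem
        repeat' first
          | assumption
          | apply Subalgebra.add_mem
          | apply Subalgebra.mul_mem
          | apply Subalgebra.pow_mem
      · simp only [Fin.reduceFinMk, Matrix.cons_val]
        have e : D (w ^ 2 / t) = - ((w / t) * (2⁻¹ * b + a * (1 / t))) := by
          rw [Derivation.leibniz_div, hDt, hDw2]
          simp only [smul_eq_mul]
          field_simp
          linear_combination (-2 : L) * hq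
        rw [e]
        apply Subalgebra.neg_mem
        repeat' first
          | assumption
          | apply Subalgebra.add_mem
          | apply Subalgebra.mul_mem
          | apply Subalgebra.pow_mem
    · simp only [Fin.reduceFinMk, Fin.isValue, Matrix.cons_val_zero, Matrix.cons_val_one,
        Matrix.cons_val] at h0 h1 h2' h3' ⊢
      have hw' : w ∈ A := by
        have e : w ^ 2 / w = w := by field_simp
        rwa [e] at h3'
      have ht' : t ∈ A := by
        have e : t = (t / w) * w := by field_simp
        rw [e]; exact A.mul_mem h1 hw'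
      fin_cases i
      · simp only [Fin.zero_eta, Fin.isValue, Matrix.cons_val_zero]
        have e : D (1 / w) = - (2⁻¹ * (2⁻¹ * b * (1 / w) ^ 2 + c * (t / w) * (1 / w))) := by
          rw [Derivation.leibniz_div, hDw]
          simp only [Derivation.map_one_eq_zero, smul_eq_mul, mul_zero, zero_sub, one_mul]
          field_simp
          ring
        rw [e]
        apply Subalgebra.neg_mem
        repeat' first
          | assumption
          | apply Subalgebra.add_mem
          | apply Subalgebra.mul_mem
          | apply Subalgebra.pow_mem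
      · simp only [Fin.mk_one, Fin.isValue, Matrix.cons_val_one, Matrix.cons_val_zero]
        have e : D (t / w) = w ^ 2 - 2⁻¹ * (2⁻¹ * b * (t / w) * (1 / w) + c * (t / w) ^ 2) := by
          rw [Derivation.leibniz_div, hDt, hDw]
          simp only [smul_eq_mul]
          field_simp
          ring
        rw [e]
        repeat' first
          | assumption
          | apply Subalgebra.add_mem
          | apply Subalgebra.sub_mem
          | apply Subalgebra.mul_mem
          | apply Subalgebra.pow_mem
      · simp only [Fin.reduceFinMk, Matrix.cons_val]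
        rw [div_self hw0]; simp
      · simp only [Fin.reduceFinMk, Matrix.cons_val]
        have e : w ^ 2 / w = w := by field_simp
        have e' : D w = 2⁻¹ * (2⁻¹ * b + c * t) := by
          rw [hDw]; field_simp; ring
        rw [e, e']
        repeat' first
          | assumption
          | apply Subalgebra.add_mem
          | apply Subalgebra.mul_mem
          | apply Subalgebra.pow_mem
    · simp only [Fin.reduceFinMk, Fin.isValue, Matrix.cons_val_zero, Matrix.cons_val_one,
        Matrix.cons_val] at h0 h1 h2' h3' ⊢
      have hwi : 1 / w ∈ A := by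
        have e : w / w ^ 2 = 1 / w := by field_simp
        rwa [e] at h2'
      fin_cases i
      · simp only [Fin.zero_eta, Fin.isValue, Matrix.cons_val_zero]
        have e : D (1 / w ^ 2) = - (2⁻¹ * b * (1 / w) ^ 3 + c * (t / w ^ 2) * (1 / w)) := by
          rw [Derivation.leibniz_div, hDw2]
          simp only [Derivation.map_one_eq_zero, smul_eq_mul, mul_zero, zero_sub, one_mul]
          field_simp
        rw [e]
        apply Subalgebra.neg_mem
        repeat' first
          | assumption
          | apply Subalgebra.add_mem
          | apply Subalgebra.mul_mem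
          | apply Subalgebra.pow_mem
      · simp only [Fin.mk_one, Fin.isValue, Matrix.cons_val_one, Matrix.cons_val_zero]
        have e : D (t / w ^ 2) = a * (1 / w) ^ 3 + 2⁻¹ * b * (t / w ^ 2) * (1 / w) := by
          rw [Derivation.leibniz_div, hDt, hDw2]
          simp only [smul_eq_mul]
          field_simp
          linear_combination (2 : L) * hq
        rw [e]
        repeat' first
          | assumption
          | apply Subalgebra.add_mem
          | apply Subalgebra.mul_mem
          | apply Subalgebra.pow_mem
      · simp only [Fin.reduceFinMk, Matrix.cons_val]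
        have e : w / w ^ 2 = 1 / w := by field_simp
        have e' : D (1 / w) = - (2⁻¹ * (2⁻¹ * b * (1 / w) ^ 2 + c * (t / w ^ 2))) := by
          rw [Derivation.leibniz_div, hDw]
          simp only [Derivation.map_one_eq_zero, smul_eq_mul, mul_zero, zero_sub, one_mul]
          field_simp
          ring
        rw [e, e']
        apply Subalgebra.neg_mem
        repeat' first
          | assumption
          | apply Subalgebra.add_mem
          | apply Subalgebra.mul_mem
          | apply Subalgebra.pow_mem
      · simp only [Fin.reduceFinMk, Matrix.cons_val]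
        rw [div_self hw20]; simp
  refine ⟨almost_of k _ ?_ t w hgen ⟨1, by simp⟩ ⟨2, by simp⟩ D hg
    (by rw [hDt]; exact pow_ne_zero _ hw0) ?_, hg⟩
  · intro i
    fin_cases i
    · exact one_ne_zero
    · exact ht0
    · exact hw0
    · exact hw20
  · intro E hE hEt
    have h1 := hder E hE
    rw [hEt, mul_zero] at h1
    rcases mul_eq_zero.1 h1 with h2 | h2
    · exact absurd h2 (mul_ne_zero (by norm_num) (pow_ne_zero _ hw0))
    · exact h2

end Pool.Agent.CVM
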