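import Pool.Agent.Lib_MP_1209e6_cv.Model
import Pool.Agent.Lib_MP_1209e6_cv.Model3
import Pool.Agent.Lib_MP_1209e6_cy.E6NoInt

/-! PIECE MODEL3: `w³ = q(t)`, `deg q ≤ 3`: the plane cubic `[1 : t : w]`, `D t = w²`, `D w = q'(t)/3`. -/

set_option autoImplicit false

open Pool.Agent.CampanaFlow

namespace Pool.Agent.CV

theorem good_three : Good 3 3 := by
  intro L _ _ k t w q hqk hq hw hw0 hgen ⟨D, hD, hDt⟩
  have ht : ¬ IsAlgebraic k t := fun h => hDt (Pool.Agent.CYDelta.kill_algebraic k D hD h)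
  obtain ⟨h, _⟩ := Pool.Agent.CVM.homogeneous3 k t w q hqk hq ht hw hw0 hgen ((w ^ 2 / D t) • D)
    (fun a ha => by rw [Derivation.smul_apply, hD a ha, smul_zero])
    (by rw [Derivation.smul_apply, smul_eq_mul, div_mul_cancel₀ _ hDt])
  exact ⟨2, _, h⟩

end Pool.Agent.CV
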