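import Pool.Agent.Lib_MP_1209e6_cv.Main
import Pool.Agent.Lib_MP_1209e6_cv.ModelThree
import Pool.Agent.Lib_MP_1209e6_cv.ModelFour
import Pool.Agent.Lib_MP_1209e6_k3.Special
import Pool.Agent.Lib_MP_1209e6_nt.End

/-! General cyclic covers with trivial canonical class: both halves. -/

set_option autoImplicit false

open Pool.Agent.Campana Pool.Agent.CampanaFlow

namespace Pool.Agent.CV

theorem Good.mono {m e e' : ℕ} (h : Good m e) (he : e' ≤ e) : Good m e' :=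
  fun L _ _ k t w q hq hd hw hw0 hgen hD => h L k t w q hq (hd.trans he) hw hw0 hgen hD

theorem good_of {m e : ℕ} (h : m = 2 ∧ e ≤ 4 ∨ m = 3 ∧ e ≤ 3 ∨ m = 4 ∧ e ≤ 2) : Good m e := by
  rcases h with ⟨rfl, h⟩ | ⟨rfl, h⟩ | ⟨rfl, h⟩
  · exact good_two.mono h
  · exact good_three.mono h
  · exact good_four.mono h

theorem final (m e r : ℕ) (hme : m = 2 ∧ e ≤ 4 ∨ m = 3 ∧ e ≤ 3 ∨ m = 4 ∧ e ≤ 2) (he : 2 ≤ e) :
    ∃ R : MvPolynomial {s : Fin ((m - 1) * r + 1) →₀ ℕ // s.degree ≤ m * r + e} ℚ, R ≠ 0 ∧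
      ∀ f : MvPolynomial (Fin ((m - 1) * r + 1)) ℂ, f.totalDegree ≤ m * r + e →
        MvPolynomial.aeval (fun s => f.coeff s.1) R ≠ 0 →
        ∀ (N : ℕ) (P : Ideal (MvPolynomial (Fin (N + 1)) ℂ)) [P.IsPrime], IsVariety P →
        ∀ (x : Fin ((m - 1) * r + 1) → FunField P) (w : FunField P), AlgebraicIndependent ℂ x →
          w ^ m = MvPolynomial.aeval x f →
          IntermediateField.adjoin ℂ (Set.range x ∪ {w}) = ⊤ →
          SpecialField (FunField P) ∧ BrodySpecial P := by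
  have hm : 2 ≤ m := by omega
  have hd2 : (m - 1) * r + 1 + 1 ≤ m * r + e := by
    have h1 : (m - 1) * r ≤ m * r := Nat.mul_le_mul_right _ (Nat.sub_le _ _)
    omega
  obtain ⟨R, hR, h⟩ := exists_families (m := m) (r := r) (e := e) hm (by omega) rfl rfl hd2
    (good_of hme)
  refine ⟨R, hR, fun f hf hRf N P _ hP x w hx hw hgen => ?_⟩
  obtain ⟨L, fL, aL, aK, tL, fin, k, N', p, hp, hu⟩ := h f hf hRf (FunField P) x w hx hw hgen
  exact ⟨Pool.Agent.K3.special_covers (K := FunField P) (funField_fg P) L k N' p hp hu,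
    Pool.Agent.CampanaNT.brody_covers P hP L k N' p hp hu⟩

end Pool.Agent.CV
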