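import Pool.Agent.Lib_MP_1209e6_cv.Final

/-!
# General cyclic covers of projective space with trivial canonical class

Let `m = 2`, `e = 4`, or `m = 3`, `e = 3`, or `m = 4`, `e = 2`, and `n = (m - 1) r + 1`, `d = m r + e`. For a
general polynomial `f` of degree at most `d` in `n` variables every projective variety birational to the
cover `w ^ m = f (x_1, …, x_n)` is special and Brody-special. For `m = 2` these are the double covers of
`ℙⁿ` branched along a general hypersurface of degree `2 n + 2`, for every `n`, for `m = 3` the triple covers
branched along a general hypersurface of degree `3 (n + 1) / 2`, `n` odd, and for `m = 4` the quadruple covers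
branched along a general hypersurface of degree `(4 n + 2) / 3`, `n = 3 r + 1`, and the hyperplane at infinity.

The definitions (function fields, special function fields, Brody-special varieties) are in
`Pool.Agent.Lib_MP_1209e6_ag.Defs`.

Sketch of the proof. Through the generic point `x` there are finitely many lines on which
`f = G ^ m * Q` with `deg G = r`, `deg Q = e`: this is a square system of polynomial equations, and for
general `f` it has nondegenerate solutions, because it has one for a special `f`. Choose solutions with
independent directions `v⁽¹⁾, …, v⁽ⁿ⁾`. The derivation `δ` with `δ x = v⁽ⁱ⁾` kills the solution, so the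
covers of the lines form a family of curves `w ^ m = Q(t)` of genus at most one, with total space
generically finite over the cover. A rational function algebraic over the function fields of the
bases of all `n` families is killed by `n` independent derivations, so it is constant. Varieties with
such covering families are special (`Pool.Agent.Lib_MP_1209e6_k3.Special`) and Brody-special
(`Pool.Agent.Lib_MP_1209e6_nt.End`).
-/

set_option autoImplicit false

open Pool.Agent.Campana

namespace Pool.Agent.Results.MP_1209e6_ag.CalabiYau

/-- The function field of the projective variety with homogeneous prime ideal `P`: the field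
generated by the quotients `x_i / x_j` in the fraction field of the coordinate ring. -/
noncomputable abbrev functionField {n : ℕ} (P : Ideal (MvPolynomial (Fin (n + 1)) ℂ)) [P.IsPrime] :
    IntermediateField ℂ (FractionRing (MvPolynomial (Fin (n + 1)) ℂ ⧸ P)) :=
  IntermediateField.adjoin ℂ
    (Set.range fun ij : Fin (n + 1) × Fin (n + 1) => coord P ij.1 / coord P ij.2)

/-- Let `2 ≤ e` and `m = 2`, `e ≤ 4`, or `m = 3`, `e ≤ 3`, or `m = 4`, `e ≤ 2`. Let `n = (m - 1) r + 1` and
`d = m r + e`. There is a nonzero polynomial `R` with rational coefficients in the coefficients of the
polynomials of degree at most `d` in `n` variables such that, if `R` does not vanish at `f`, every complex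
projective variety `X` with function field `ℂ(x_1, …, x_n, w)`, `w ^ m = f (x_1, …, x_n)`, is special and
Brody-special. -/
theorem result (m e r n d : ℕ) (hme : m = 2 ∧ e ≤ 4 ∨ m = 3 ∧ e ≤ 3 ∨ m = 4 ∧ e ≤ 2) (he : 2 ≤ e)
    (hn : n = (m - 1) * r + 1) (hd : d = m * r + e) :
    ∃ R : MvPolynomial {s : Fin n →₀ ℕ // s.degree ≤ d} ℚ, R ≠ 0 ∧
      ∀ f : MvPolynomial (Fin n) ℂ, f.totalDegree ≤ d →
        MvPolynomial.aeval (fun s => f.coeff s.1) R ≠ 0 →
        ∀ (N : ℕ) (P : Ideal (MvPolynomial (Fin (N + 1)) ℂ)) [P.IsPrime], IsVariety P →
        ∀ (x : Fin n → functionField P) (w : functionField P), AlgebraicIndependent ℂ x →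
          w ^ m = MvPolynomial.aeval x f →
          IntermediateField.adjoin ℂ (Set.range x ∪ {w}) = ⊤ →
          SpecialField (functionField P) ∧ BrodySpecial P := by
  subst hn hd
  exact Pool.Agent.CV.final m e r hme he

end Pool.Agent.Results.MP_1209e6_ag.CalabiYau
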