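import Mathlib

/-! CY, piece SYS: from a nonzero polynomial in the coefficients and the variables to a nonzero
polynomial in the coefficients. -/

set_option autoImplicit false

open MvPolynomial

namespace Pool.Agent.CV

theorem exists_R {σ τ k : Type} [Field k] [Algebra k ℂ] (S : MvPolynomial (σ ⊕ τ) k) (hS : S ≠ 0) :
    ∃ R : MvPolynomial σ k, R ≠ 0 ∧ ∀ (Om : Type) [Field Om] [Algebra ℂ Om] [Algebra k Om]
      [IsScalarTower k ℂ Om] (c : σ → ℂ) (x : τ → Om), AlgebraicIndependent ℂ x → aeval c R ≠ 0 →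
      aeval (Sum.elim (fun s => algebraMap ℂ Om (c s)) x) S ≠ 0 := by
  classical
  let P : MvPolynomial τ (MvPolynomial σ k) :=
    sumAlgEquiv k τ σ (rename (Equiv.sumComm σ τ) S)
  have hP : P ≠ 0 := by
    intro h
    have h1 : rename (Equiv.sumComm σ τ) S = 0 :=
      (map_eq_zero_iff _ (sumAlgEquiv k τ σ).injective).1 h
    exact hS ((map_eq_zero_iff _ (rename_injective _ (Equiv.sumComm σ τ).injective)).1 h1)
  obtain ⟨s, hs⟩ := MvPolynomial.ne_zero_iff.1 hP
  refine ⟨P.coeff s, hs, ?_⟩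
  intro Om _ _ _ _ c x hx hc h0
  -- the polynomial with coefficients in `ℂ`
  let Q : MvPolynomial τ ℂ := MvPolynomial.map ((aeval c : MvPolynomial σ k →ₐ[k] ℂ) :
    MvPolynomial σ k →+* ℂ) P
  have hQ : Q ≠ 0 := by
    intro h
    have h1 := congrArg (MvPolynomial.coeff s) h
    rw [MvPolynomial.coeff_map, MvPolynomial.coeff_zero] at h1
    exact hc h1
  have hQx : aeval x Q ≠ 0 := fun h => hQ ((injective_iff_map_eq_zero _).1 hx Q h)
  apply hQx
  rw [← h0]
  -- both sides are algebra homomorphisms of `S`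
  let Φ : MvPolynomial (σ ⊕ τ) k →+* Om :=
    ((aeval x : MvPolynomial τ ℂ →ₐ[ℂ] Om) : MvPolynomial τ ℂ →+* Om).comp
      ((MvPolynomial.map ((aeval c : MvPolynomial σ k →ₐ[k] ℂ) : MvPolynomial σ k →+* ℂ)).comp
        (((sumAlgEquiv k τ σ : MvPolynomial (τ ⊕ σ) k →ₐ[k] MvPolynomial τ (MvPolynomial σ k)) :
          MvPolynomial (τ ⊕ σ) k →+* MvPolynomial τ (MvPolynomial σ k)).comp
          ((rename (Equiv.sumComm σ τ) : MvPolynomial (σ ⊕ τ) k →ₐ[k] MvPolynomial (τ ⊕ σ) k) :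
            MvPolynomial (σ ⊕ τ) k →+* MvPolynomial (τ ⊕ σ) k)))
  let Ψ : MvPolynomial (σ ⊕ τ) k →+* Om :=
    ((aeval (Sum.elim (fun s => algebraMap ℂ Om (c s)) x) : MvPolynomial (σ ⊕ τ) k →ₐ[k] Om) :
      MvPolynomial (σ ⊕ τ) k →+* Om)
  have hΦΨ : Φ = Ψ := by
    refine MvPolynomial.ringHom_ext ?_ ?_
    · intro a
      show aeval x (MvPolynomial.map _ (sumAlgEquiv k τ σ (rename _ (C a)))) = aeval _ (C a)
      rw [rename_C, aeval_C]
      have h1 : sumAlgEquiv k τ σ (C a) = C (C a) := by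
        exact sumAlgEquiv_C_inl k τ σ a
      rw [h1, MvPolynomial.map_C, aeval_C]
      show algebraMap ℂ Om (aeval c (C a)) = _
      rw [aeval_C, ← IsScalarTower.algebraMap_apply]
    · rintro (j | j)
      · show aeval x (MvPolynomial.map _ (sumAlgEquiv k τ σ (rename _ (X (Sum.inl j))))) =
          aeval _ (X (Sum.inl j))
        rw [rename_X, aeval_X]
        have h1 : sumAlgEquiv k τ σ (X (Equiv.sumComm σ τ (Sum.inl j))) = C (X j) :=
          sumAlgEquiv_X_inr k τ σ j
        rw [h1, MvPolynomial.map_C, aeval_C]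
        show algebraMap ℂ Om (aeval c (X j)) = _
        rw [aeval_X]
        rfl
      · show aeval x (MvPolynomial.map _ (sumAlgEquiv k τ σ (rename _ (X (Sum.inr j))))) =
          aeval _ (X (Sum.inr j))
        rw [rename_X, aeval_X]
        have h1 : sumAlgEquiv k τ σ (X (Equiv.sumComm σ τ (Sum.inr j))) = X j :=
          sumAlgEquiv_X_inl k τ σ j
        rw [h1, MvPolynomial.map_X, aeval_X]
        rfl
  exact congrArg (fun F : MvPolynomial (σ ⊕ τ) k →+* Om => F S) hΦΨ

end Pool.Agent.CV
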