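import Pool.Agent.Lib_MP_1209e6_cv.Sys
import Pool.Agent.Lib_MP_1209e6_cv.ExistsR

/-! PIECE COEF: from the parameters `(c, x)` to the coefficients `c`, with `x` generic. -/

set_option autoImplicit false

open MvPolynomial TrivSqZeroExt

namespace Pool.Agent.CV

/-- A polynomial of degree at most `d` is the polynomial with its coefficients. -/
theorem coef_poly {S : Type} [CommRing S] {n d : ℕ} (f : MvPolynomial (Fin n) S)
    (hf : f.totalDegree ≤ d) : poly (fun s : Mon n d => f.coeff s.1) = f := by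
  classical
  ext t
  unfold poly
  rw [coeff_sum]
  simp only [coeff_monomial]
  by_cases ht : t.degree ≤ d
  · rw [Finset.sum_eq_single (⟨t, ht⟩ : Mon n d)]
    · rw [if_pos rfl]
    · intro s _ hs
      refine if_neg fun h => hs (Subtype.ext h)
    · intro h
      exact absurd (Finset.mem_univ _) h
  · have h1 : f.coeff t = 0 := by
      by_contra h
      refine ht (le_trans ?_ hf)
      have h2 := le_totalDegree (mem_support_iff.2 h)
      rw [Finsupp.degree_apply]
      exact h2
    rw [h1]
    refine Finset.sum_eq_zero fun s _ => if_neg fun h => ht ?_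
    rw [← h]
    exact s.2

/-- `R` in `Coef` is a nonzero coefficient of the `R` of `exists_sol` as a polynomial in `x`; for a complex
`f` with `R (f) ≠ 0` and `x` algebraically independent over `ℂ` the value at `(f, x)` is not zero. -/
theorem exists_coef (m r e n d : ℕ) (hm : 2 ≤ m) (he : 1 ≤ e) (hn : n = (m - 1) * r + 1)
    (hd : d = m * r + e) (hd2 : n + 1 ≤ d) :
    ∃ R : MvPolynomial (Mon n d) ℚ, R ≠ 0 ∧
      ∀ f : MvPolynomial (Fin n) ℂ, f.totalDegree ≤ d → aeval (fun s : Mon n d => f.coeff s.1) R ≠ 0 →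
        ∀ (Ω : Type) [Field Ω] [Algebra ℂ Ω] [IsAlgClosed Ω] (x : Fin n → Ω),
          AlgebraicIndependent ℂ x → ∃ y : Fin n → Unk n r e → Ω,
            (∀ i, IsSol m (map (algebraMap ℂ Ω) f) x i (y i)) ∧
              (∀ i, Rigid m (map (algebraMap ℂ Ω) f) x i (y i)) ∧
                (Matrix.of fun i => vOf (y i)).det ≠ 0 := by
  obtain ⟨S, hS, hsol⟩ := exists_sol m r e n d hm he hn hd hd2
  obtain ⟨R, hR, hRS⟩ := exists_R S hS
  refine ⟨R, hR, ?_⟩
  intro f hf hfR Ω _ _ _ x hx
  haveI : CharZero Ω := charZero_of_injective_algebraMap (algebraMap ℂ Ω).injective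
  haveI : IsScalarTower ℚ ℂ Ω := IsScalarTower.of_algebraMap_eq fun q => by simp
  have h1 := hRS Ω (fun s : Mon n d => f.coeff s.1) x hx hfR
  have h2 := hsol Ω (fun s : Mon n d => algebraMap ℂ Ω (f.coeff s.1)) x h1
  have h3 : poly (fun s : Mon n d => algebraMap ℂ Ω (f.coeff s.1)) =
      MvPolynomial.map (algebraMap ℂ Ω) f := by
    rw [← sys_poly_map (algebraMap ℂ Ω) (fun s : Mon n d => f.coeff s.1), coef_poly f hf]
  rw [h3] at h2
  exact h2

end Pool.Agent.CV
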