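import Pool.Agent.Lib_MP_1209e6_cv.Defs
import Pool.Agent.Lib_MP_1209e6_ag.Der

/-! PIECE CONST: the derivations dual to the coordinates, and their common constants. -/

set_option autoImplicit false

open MvPolynomial

namespace Pool.Agent.CV

/-- `K` is a finite extension of the purely transcendental field `ℂ(x)`; derivations extend. -/
theorem exists_pd {K : Type} [Field K] [Algebra ℂ K] {n m : ℕ} (hm : m ≠ 0)
    (f : MvPolynomial (Fin n) ℂ) (x : Fin n → K) (w : K)
    (hx : AlgebraicIndependent ℂ x) (hw : w ^ m = aeval x f)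
    (hgen : IntermediateField.adjoin ℂ (Set.range x ∪ {w}) = ⊤) :
    ∃ pd : Fin n → Derivation ℂ K K, ∀ j l, pd j (x l) = if j = l then 1 else 0 := by
  choose pd hpd using fun j : Fin n =>
    Pool.Agent.Campana.exists_derivation (k := ℂ) x hx (fun l => if j = l then 1 else 0)
  exact ⟨pd, hpd⟩

/-- a derivation which kills the coordinates is zero -/
theorem der_zero_of_coord {K : Type} [Field K] [Algebra ℂ K] {n m : ℕ} (hm : m ≠ 0)
    (f : MvPolynomial (Fin n) ℂ) (x : Fin n → K) (w : K) (hw : w ^ m = aeval x f)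
    (hgen : IntermediateField.adjoin ℂ (Set.range x ∪ {w}) = ⊤) (δ : Derivation ℂ K K)
    (h : ∀ j, δ (x j) = 0) (a : K) : δ a = 0 := by
  have hK : CharZero K := charZero_of_injective_algebraMap (algebraMap ℂ K).injective
  have hpoly : ∀ g : MvPolynomial (Fin n) ℂ, δ (aeval x g) = 0 := by
    intro g
    induction g using MvPolynomial.induction_on with
    | C c => rw [aeval_C, δ.map_algebraMap]
    | add p q hp hq => rw [map_add, map_add, hp, hq, add_zero]
    | mul_X p j hp => rw [map_mul, aeval_X, δ.leibniz, hp, h, smul_zero, smul_zero, add_zero]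
  have hδw : δ w = 0 := by
    by_cases hw0 : w = 0
    · rw [hw0, map_zero]
    · have h1 := congrArg δ hw
      rw [hpoly, Derivation.leibniz_pow, smul_eq_mul, nsmul_eq_mul] at h1
      have h2 : (m : K) ≠ 0 := by exact_mod_cast hm
      rcases mul_eq_zero.1 h1 with h3 | h3
      · exact absurd h3 h2
      · exact (mul_eq_zero.1 h3).resolve_left (pow_ne_zero _ hw0)
  have ha : a ∈ IntermediateField.adjoin ℂ (Set.range x ∪ {w}) := by
    rw [hgen]
    trivial
  induction ha using IntermediateField.adjoin_induction with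
  | mem b hb =>
    rcases hb with ⟨j, rfl⟩ | hb
    · exact h j
    · rw [Set.mem_singleton_iff.1 hb, hδw]
  | algebraMap c => exact δ.map_algebraMap c
  | add b c _ _ hb hc => rw [map_add, hb, hc, add_zero]
  | inv b _ hb => rw [δ.leibniz_inv, hb, smul_zero]
  | mul b c _ _ hb hc => rw [δ.leibniz, hb, hc, smul_zero, smul_zero, add_zero]

/-- an element killed by all `∂_j` is killed by all derivations of `K`, so it is algebraic over `ℂ` -/
theorem const_of_pd {K : Type} [Field K] [Algebra ℂ K] {n m : ℕ} (hm : m ≠ 0)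
    (f : MvPolynomial (Fin n) ℂ) (x : Fin n → K) (w : K)
    (hx : AlgebraicIndependent ℂ x) (hw : w ^ m = aeval x f)
    (hgen : IntermediateField.adjoin ℂ (Set.range x ∪ {w}) = ⊤)
    (pd : Fin n → Derivation ℂ K K) (hpd : ∀ j l, pd j (x l) = if j = l then 1 else 0)
    (u : K) (hu : ∀ j, pd j u = 0) : ∃ c : ℂ, u = algebraMap ℂ K c := by
  have hsum : ∀ (δ : Derivation ℂ K K) (z : K),
      (∑ j, δ (x j) • pd j : Derivation ℂ K K) z = ∑ j, δ (x j) * pd j z := by
    intro δ z
    have h2 := map_sum (Derivation.coeFnAddMonoidHom (R := ℂ) (A := K) (M := K))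
      (fun j => δ (x j) • pd j) Finset.univ
    have h3 := congrFun h2 z
    rw [Finset.sum_apply] at h3
    exact h3
  have hall : ∀ δ : Derivation ℂ K K, δ u = 0 := by
    intro δ
    have h1 := der_zero_of_coord hm f x w hw hgen (δ - ∑ j, δ (x j) • pd j) (fun l => by
      rw [Derivation.sub_apply, hsum]
      simp only [hpd, mul_ite, mul_one, mul_zero, Finset.sum_ite_eq', Finset.mem_univ, if_true,
        sub_self]) u
    rw [Derivation.sub_apply, hsum] at h1
    simp only [hu, mul_zero, Finset.sum_const_zero, sub_zero] at h1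
    exact h1
  have h1 : IsAlgebraic ℂ u := by
    by_contra hn
    have h2 : AlgebraicIndependent ℂ (fun _ : Unit => u) :=
      algebraicIndependent_unique_type_iff.2 hn
    obtain ⟨E, hE⟩ := Pool.Agent.Campana.exists_derivation (fun _ : Unit => u) h2 (fun _ => 1)
    have h3 := hE ()
    rw [hall E] at h3
    exact zero_ne_one h3
  have h3 : IsIntegral ℂ u := h1.isIntegral
  have h4 := IsAlgClosed.degree_eq_one_of_irreducible ℂ (minpoly.irreducible h3)
  obtain ⟨c, hc⟩ := minpoly.mem_range_of_degree_eq_one ℂ u h4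
  exact ⟨c, hc.symm⟩

end Pool.Agent.CV
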