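import Pool.Agent.Lib_MP_1209e6_cv.Family
import Pool.Agent.Lib_MP_1209e6_cv.ModelThree
import Pool.Agent.Lib_MP_1209e6_cv.ModelFour

/-!
Cyclic covers `w ^ m = f(x_1, …, x_n)` with `f` of degree at most `e` in each variable, `(m, e)` one of `(2, 4)`,
`(3, 3)`, `(4, 2)`: the `n` families of curves `x_j = constant` for `j ≠ i` are families of curves of genus at most
one, and they have no common nonconstant rational function.
-/

set_option autoImplicit false

open MvPolynomial Pool.Agent.Campana Pool.Agent.CampanaFlow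

namespace Pool.Agent.MQ

open Pool.Agent.CV

variable {K : Type} [Field K] [Algebra ℂ K]

/-- the coefficient of `x_i ^ (s i)` in the monomial `s` of `f` -/
noncomputable def cf {n : ℕ} (x : Fin n → K) (i : Fin n) (f : MvPolynomial (Fin n) ℂ) (s : Fin n →₀ ℕ) : K :=
  algebraMap ℂ K (f.coeff s) * ∏ j ∈ Finset.univ.erase i, x j ^ s j

/-- `f` as a polynomial in `x_i` -/
noncomputable def slice {n : ℕ} (x : Fin n → K) (i : Fin n) (f : MvPolynomial (Fin n) ℂ) : Polynomial K :=
  ∑ s ∈ f.support, Polynomial.C (cf x i f s) * Polynomial.X ^ s i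

theorem slice_eval {n : ℕ} (x : Fin n → K) (i : Fin n) (f : MvPolynomial (Fin n) ℂ) :
    (slice x i f).eval (x i) = aeval x f := by
  unfold slice cf
  rw [Polynomial.eval_finset_sum, aeval_def, eval₂_eq']
  refine Finset.sum_congr rfl fun s _ => ?_
  rw [Polynomial.eval_mul, Polynomial.eval_C, Polynomial.eval_pow, Polynomial.eval_X, mul_assoc,
    Finset.prod_erase_mul _ _ (Finset.mem_univ i)]

theorem slice_natDegree {n e : ℕ} (x : Fin n → K) (i : Fin n) (f : MvPolynomial (Fin n) ℂ)
    (hd : f.degreeOf i ≤ e) : (slice x i f).natDegree ≤ e := by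
  unfold slice
  refine Polynomial.natDegree_sum_le_of_forall_le _ _ fun s hs => ?_
  exact (Polynomial.natDegree_C_mul_X_pow_le _ _).trans ((monomial_le_degreeOf i hs).trans hd)

/-- the field of the family `i` -/
noncomputable def kf {n : ℕ} (x : Fin n → K) (i : Fin n) : IntermediateField ℂ K :=
  IntermediateField.adjoin ℂ (x '' {j | j ≠ i})

theorem x_mem_kf {n : ℕ} (x : Fin n → K) {i j : Fin n} (h : j ≠ i) : x j ∈ kf x i :=
  IntermediateField.subset_adjoin _ _ ⟨j, h, rfl⟩

theorem cf_mem {n : ℕ} (x : Fin n → K) (i : Fin n) (f : MvPolynomial (Fin n) ℂ) (s : Fin n →₀ ℕ) :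
    cf x i f s ∈ kf x i := by
  unfold cf
  refine mul_mem (algebraMap_mem _ _) (prod_mem fun j hj => pow_mem (x_mem_kf x ?_) _)
  exact (Finset.mem_erase.1 hj).1

theorem slice_coeff {n : ℕ} (x : Fin n → K) (i : Fin n) (f : MvPolynomial (Fin n) ℂ) (l : ℕ) :
    (slice x i f).coeff l ∈ kf x i := by
  unfold slice
  rw [Polynomial.finset_sum_coeff]
  refine sum_mem fun s _ => ?_
  rw [Polynomial.coeff_C_mul_X_pow]
  split_ifs
  · exact cf_mem x i f s
  · exact zero_mem _

theorem kill_adj (D : Derivation ℂ K K) (s : Set K) (h : ∀ x ∈ s, D x = 0) :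
    ∀ a ∈ IntermediateField.adjoin ℂ s, D a = 0 := by
  intro a ha
  induction ha using IntermediateField.adjoin_induction with
  | mem x hx => exact h x hx
  | algebraMap c => exact D.map_algebraMap c
  | add x y _ _ hx hy => rw [map_add, hx, hy, add_zero]
  | inv x _ hx => rw [Derivation.leibniz_inv, hx, smul_zero]
  | mul x y _ _ hx hy => rw [D.leibniz, hx, hy, smul_zero, smul_zero, add_zero]

/-- an element which is killed by the partial derivatives is a constant -/
theorem const_of_kill {m n : ℕ} (hm : m ≠ 0) (f : MvPolynomial (Fin n) ℂ) (x : Fin n → K) (w : K)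
    (hw : w ^ m = aeval x f) (hw0 : w ≠ 0) (hgen : IntermediateField.adjoin ℂ (Set.range x ∪ {w}) = ⊤)
    (pd : Fin n → Derivation ℂ K K) (hpd : ∀ j l, pd j (x l) = if j = l then 1 else 0)
    (u : K) (hu : ∀ j, pd j u = 0) : ∃ c : ℂ, u = algebraMap ℂ K c := by
  have hint : IsAlgebraic ℂ u := by
    by_contra h
    obtain ⟨E, hE⟩ := exists_derivation (k := ℂ) (fun _ : Unit => u)
      (algebraicIndependent_unique_type_iff.2 h) (fun _ => 1)
    have hEu : E u = 1 := hE ()
    let E' : Derivation ℂ K K := E - ∑ j, E (x j) • pd j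
    have hE' : ∀ a, E' a = E a - ∑ j, E (x j) * pd j a := by
      intro a
      show E a - (∑ j, E (x j) • pd j) a = _
      congr 1
      rw [← Derivation.coeFnAddMonoidHom_apply, map_sum, Finset.sum_apply]
      rfl
    have hz : ∀ l, E' (x l) = 0 := by
      intro l
      rw [hE', Finset.sum_eq_single l, hpd, if_pos rfl, mul_one, sub_self]
      · intro j _ hj
        rw [hpd, if_neg hj, mul_zero]
      · intro hl
        exact absurd (Finset.mem_univ l) hl
    have h1 := der_eq_zero_of_gen hm f x w hw hw0 hgen E' hz u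
    rw [hE', hEu, Finset.sum_eq_zero (fun j _ => by rw [hu j, mul_zero]), sub_zero] at h1
    exact one_ne_zero h1
  have h9 : (minpoly ℂ u).degree = 1 :=
    IsAlgClosed.degree_eq_one_of_irreducible ℂ (minpoly.irreducible hint.isIntegral)
  obtain ⟨c, hc⟩ := minpoly.mem_range_of_degree_eq_one ℂ u h9
  exact ⟨c, hc.symm⟩

/-- The `n` families of curves. -/
theorem multi_families {m e n : ℕ} (hm : m ≠ 0) (hgood : Good m e)
    (f : MvPolynomial (Fin n) ℂ) (hf : f ≠ 0) (hd : ∀ i, f.degreeOf i ≤ e)
    (x : Fin n → K) (w : K) (hx : AlgebraicIndependent ℂ x) (hw : w ^ m = aeval x f)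
    (hgen : IntermediateField.adjoin ℂ (Set.range x ∪ {w}) = ⊤) :
    ∃ (k : Fin n → IntermediateField ℂ K) (N : Fin n → ℕ) (p : ∀ i, Fin (N i + 1) → K),
      (∀ i, AlmostHomogeneous (k i) (p i)) ∧
        ∀ u : K, (∀ i, IsAlgebraic (k i) u) → ∃ c : ℂ, u = algebraMap ℂ K c := by
  classical
  have hw0 : w ≠ 0 := by
    intro h
    rw [h, zero_pow hm] at hw
    exact hf (hx.eq_zero_of_aeval_eq_zero f hw.symm)
  choose pd hpd' using fun j : Fin n =>
    exists_derivation (k := ℂ) x hx (fun l => if j = l then (1 : K) else 0)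
  have hpd : ∀ j l, pd j (x l) = if j = l then 1 else 0 := hpd'
  have hkill : ∀ i, ∀ a ∈ kf x i, pd i a = 0 := by
    intro i
    refine kill_adj (pd i) _ ?_
    rintro _ ⟨j, hj, rfl⟩
    rw [hpd, if_neg (Ne.symm hj)]
  have hex : ∀ i, ∃ (N : ℕ) (p : Fin (N + 1) → K), AlmostHomogeneous (kf x i) p := by
    intro i
    refine hgood K (kf x i) (x i) w (slice x i f) (slice_coeff x i f)
      (slice_natDegree x i f (hd i)) (by rw [hw, slice_eval]) hw0 ?_ ⟨pd i, hkill i, ?_⟩
    · rw [eq_top_iff, ← hgen]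
      refine IntermediateField.adjoin_le_iff.2 ?_
      rintro a (⟨j, rfl⟩ | ha)
      · by_cases hj : j = i
        · rw [hj]
          exact IntermediateField.subset_adjoin _ _ (Or.inr (Or.inl rfl))
        · exact IntermediateField.subset_adjoin _ _ (Or.inl (x_mem_kf x hj))
      · rw [Set.mem_singleton_iff.1 ha]
        exact IntermediateField.subset_adjoin _ _ (Or.inr (Or.inr rfl))
    · rw [hpd, if_pos rfl]
      exact one_ne_zero
  choose N p hp using hex
  refine ⟨kf x, N, p, hp, fun u hu => ?_⟩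
  exact const_of_kill hm f x w hw hw0 hgen pd hpd u fun j =>
    Pool.Agent.CYDelta.kill_algebraic (kf x j) (pd j) (hkill j) (hu j)

end Pool.Agent.MQ
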