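import Mathlib

/-!
# General cyclic covers: definitions

`MP_1209e6_ag`: for general `f` of degree `d = m r + e` in `n = (m - 1) r + 1` variables the lines on which
`f = G ^ m * Q`, `deg G ≤ r`, `deg Q ≤ e`, through a general point form a finite set; they give `n` covering
families of curves of genus at most one of the cover `w ^ m = f`.

Everything is stated over an arbitrary commutative ring `S`: the polynomials with rational coefficients of
the system are the values at `S = MvPolynomial _ ℚ`, the tangent space is given by the dual numbers.
-/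

set_option autoImplicit false

open MvPolynomial

namespace Pool.Agent.CV

/-- the monomials of degree at most `d` in `n` variables -/
abbrev Mon (n d : ℕ) : Type := {s : Fin n →₀ ℕ // s.degree ≤ d}

instance (n d : ℕ) : Finite (Mon n d) := (Finsupp.finite_of_degree_le d).to_subtype

noncomputable instance (n d : ℕ) : Fintype (Mon n d) := Fintype.ofFinite _

/-- the unknowns: the direction `v`, the coefficients `1, …, r` of `G`, the coefficients of `Q` -/
abbrev Unk (n r e : ℕ) : Type := Fin n ⊕ (Fin r ⊕ Fin (e + 1))

section ring

variable {S : Type*} [CommRing S] {n r e : ℕ}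

/-- the polynomial with the coefficients `c` -/
noncomputable def poly {d : ℕ} (c : Mon n d → S) : MvPolynomial (Fin n) S :=
  ∑ s, monomial s.1 (c s)

/-- the direction -/
def vOf (y : Unk n r e → S) : Fin n → S := fun j => y (Sum.inl j)

/-- `G = 1 + G_1 X + … + G_r X ^ r` -/
noncomputable def GOf (y : Unk n r e → S) : Polynomial S :=
  1 + ∑ k : Fin r, Polynomial.C (y (Sum.inr (Sum.inl k))) * Polynomial.X ^ (k.1 + 1)

/-- `Q = Q_0 + … + Q_e X ^ e` -/
noncomputable def QOf (y : Unk n r e → S) : Polynomial S :=
  ∑ k : Fin (e + 1), Polynomial.C (y (Sum.inr (Sum.inr k))) * Polynomial.X ^ k.1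

/-- the line `b + X v` with `b = x - x_i v`; its parameter is the `i`-th coordinate if `v_i = 1` -/
noncomputable def line (x v : Fin n → S) (i j : Fin n) : Polynomial S :=
  Polynomial.C (x j - x i * v j) + Polynomial.X * Polynomial.C (v j)

/-- the restriction of `f` to the line -/
noncomputable def res (f : MvPolynomial (Fin n) S) (x v : Fin n → S) (i : Fin n) : Polynomial S :=
  aeval (line x v i) f

/-- `y` is a solution of the system: `v_i = 1` and `f (b + X v) = G ^ m * Q` -/
def IsSol (m : ℕ) (f : MvPolynomial (Fin n) S) (x : Fin n → S) (i : Fin n) (y : Unk n r e → S) : Prop :=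
  vOf y i = 1 ∧ res f x (vOf y) i = GOf y ^ m * QOf y

end ring

section dual

open TrivSqZeroExt

variable {Ω : Type*} [Field Ω] {n r e : ℕ}

/-- the vector `y + ε z` over the dual numbers -/
def dual {κ : Type*} (y z : κ → Ω) : κ → DualNumber Ω := fun k => inl (y k) + inr (z k)

/-- the solution `y` is nondegenerate: the only tangent vector of the system at `y` is zero -/
def Rigid (m : ℕ) (f : MvPolynomial (Fin n) Ω) (x : Fin n → Ω) (i : Fin n) (y : Unk n r e → Ω) : Prop :=
  ∀ z : Unk n r e → Ω, IsSol m (map (inlHom Ω Ω) f) (fun j => inl (x j)) i (dual y z) → z = 0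

end dual

end Pool.Agent.CV
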