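import Mathlib

/-! CY: evaluation of a polynomial at a first order deformation of a point. -/

set_option autoImplicit false

open MvPolynomial

namespace Pool.Agent.CV

/-- The first order deformation `p + ε η` of a point. -/
def dpt {σ O : Type} [CommRing O] (p η : σ → O) (s : σ) : DualNumber O :=
  TrivSqZeroExt.inl (p s) + TrivSqZeroExt.inr (η s)

theorem dpt_fst {σ O : Type} [CommRing O] (p η : σ → O) (s : σ) :
    TrivSqZeroExt.fst (dpt p η s) = p s := by simp [dpt]

theorem dpt_snd {σ O : Type} [CommRing O] (p η : σ → O) (s : σ) :
    TrivSqZeroExt.snd (dpt p η s) = η s := by simp [dpt]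

/-- Taylor's formula of the first order. -/
theorem aeval_dpt {σ k O : Type} [Fintype σ] [CommRing k] [CommRing O] [Algebra k O]
    (p η : σ → O) (F : MvPolynomial σ k) :
    aeval (dpt p η) F =
      TrivSqZeroExt.inl (aeval p F) + TrivSqZeroExt.inr (∑ s, aeval p (pderiv s F) * η s) := by
  classical
  induction F using MvPolynomial.induction_on with
  | C a =>
    rw [aeval_C, aeval_C]
    have h : ∀ s : σ, aeval p (pderiv s (C a)) * η s = 0 := by
      intro s
      rw [pderiv_C, map_zero, zero_mul]
    rw [Finset.sum_congr rfl (fun s _ => h s), Finset.sum_const_zero, TrivSqZeroExt.inr_zero,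
      add_zero]
    rfl
  | add f g hf hg =>
    rw [map_add, hf, hg, map_add, TrivSqZeroExt.inl_add]
    have h : ∀ s : σ, aeval p (pderiv s (f + g)) * η s =
        aeval p (pderiv s f) * η s + aeval p (pderiv s g) * η s := by
      intro s
      rw [map_add, map_add, add_mul]
    rw [Finset.sum_congr rfl (fun s _ => h s), Finset.sum_add_distrib, TrivSqZeroExt.inr_add]
    abel
  | mul_X f j hf =>
    rw [map_mul, hf, aeval_X]
    have h : ∀ s : σ, aeval p (pderiv s (f * X j)) * η s =
        (aeval p (pderiv s f) * η s) * p j + aeval p f * (if s = j then η s else 0) := by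
      intro s
      rw [Derivation.leibniz, pderiv_X, map_add, smul_eq_mul, smul_eq_mul, map_mul, map_mul,
        aeval_X]
      by_cases hs : s = j
      · subst hs
        simp
        ring
      · rw [Pi.single_eq_of_ne' hs, if_neg hs, map_zero]
        ring
    rw [Finset.sum_congr rfl (fun s _ => h s), Finset.sum_add_distrib, ← Finset.sum_mul,
      ← Finset.mul_sum, Finset.sum_ite_eq' Finset.univ j η, if_pos (Finset.mem_univ j)]
    refine TrivSqZeroExt.ext ?_ ?_
    · simp [dpt, map_mul]
    · simp [dpt, map_mul]
      ring

end Pool.Agent.CV
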