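import Pool.Agent.Lib_MP_1209e6_cv.Defs
import Pool.Agent.Lib_MP_1209e6_cv.Model
import Pool.Agent.Lib_MP_1209e6_dp.DerAlg

/-! FAMILY: the field part (the field `L = K(y)`, the constants `k = ℂ(y, b)`, `t`, `w'`, generation). -/

set_option autoImplicit false

open MvPolynomial Pool.Agent.CampanaFlow

namespace Pool.Agent.CV

section polys

variable {S T : Type*} [CommRing S] [CommRing T] {n r e : ℕ}

theorem eval_line (x v : Fin n → S) (i j : Fin n) : (line x v i j).eval (x i) = x j := by
  unfold line
  simp only [Polynomial.eval_add, Polynomial.eval_C, Polynomial.eval_mul, Polynomial.eval_X]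
  ring

theorem eval_res (f : MvPolynomial (Fin n) S) (x v : Fin n → S) (i : Fin n) :
    (res f x v i).eval (x i) = eval x f := by
  have h : ((Polynomial.aeval (x i) : Polynomial S →ₐ[S] S).comp
      (aeval (line x v i) : MvPolynomial (Fin n) S →ₐ[S] Polynomial S)) = aeval x := by
    ext j
    simp only [AlgHom.coe_comp, Function.comp_apply, aeval_X]
    rw [Polynomial.coe_aeval_eq_eval]
    exact eval_line x v i j
  have h2 := congrArg (fun g : MvPolynomial (Fin n) S →ₐ[S] S => g f) h
  simp only [AlgHom.coe_comp, Function.comp_apply] at h2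
  rw [Polynomial.coe_aeval_eq_eval] at h2
  unfold res
  rw [h2]
  exact congrFun (congrArg DFunLike.coe (MvPolynomial.coe_aeval_eq_eval x)) f

theorem map_QOf (φ : S →+* T) (y : Unk n r e → S) :
    (QOf y).map φ = QOf (fun k => φ (y k) : Unk n r e → T) := by
  unfold QOf
  rw [Polynomial.map_sum]
  refine Finset.sum_congr rfl (fun k _ => ?_)
  rw [Polynomial.map_mul, Polynomial.map_pow, Polynomial.map_C, Polynomial.map_X]

theorem map_GOf (φ : S →+* T) (y : Unk n r e → S) :
    (GOf y).map φ = GOf (fun k => φ (y k) : Unk n r e → T) := by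
  unfold GOf
  rw [Polynomial.map_add, Polynomial.map_one, Polynomial.map_sum]
  congr 1
  refine Finset.sum_congr rfl (fun k _ => ?_)
  rw [Polynomial.map_mul, Polynomial.map_pow, Polynomial.map_C, Polynomial.map_X]

theorem natDegree_QOf (y : Unk n r e → S) : (QOf y).natDegree ≤ e := by
  unfold QOf
  refine Polynomial.natDegree_sum_le_of_forall_le _ _ (fun k _ => ?_)
  refine (Polynomial.natDegree_C_mul_X_pow_le _ _).trans ?_
  have := k.2
  omega

theorem coeff_QOf_mem {A : Type*} [SetLike A S] [AddSubmonoidClass A S] (M : A)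
    (y : Unk n r e → S) (hy : ∀ k, y k ∈ M) (l : ℕ) : (QOf y).coeff l ∈ M := by
  unfold QOf
  rw [Polynomial.finset_sum_coeff]
  refine sum_mem (fun k _ => ?_)
  rw [Polynomial.coeff_C_mul, Polynomial.coeff_X_pow]
  split_ifs
  · rw [mul_one]; exact hy _
  · rw [mul_zero]; exact zero_mem _

theorem eval_GOf_mem {A : Type*} [SetLike A S] [SubringClass A S] (M : A)
    (y : Unk n r e → S) (hy : ∀ k, y k ∈ M) (t : S) (ht : t ∈ M) : (GOf y).eval t ∈ M := by
  unfold GOf
  rw [Polynomial.eval_add, Polynomial.eval_one, Polynomial.eval_finset_sum]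
  refine add_mem (one_mem _) (sum_mem (fun k _ => ?_))
  rw [Polynomial.eval_mul, Polynomial.eval_pow, Polynomial.eval_C, Polynomial.eval_X]
  exact mul_mem (hy _) (pow_mem ht _)

end polys

/-- a derivation which preserves a subfield restricts to it -/
theorem der_restrict {K Ω : Type} [Field K] [Field Ω] [Algebra ℂ K] [Algebra K Ω] [Algebra ℂ Ω]
    [IsScalarTower ℂ K Ω] (L : IntermediateField K Ω) (δ : Derivation ℂ Ω Ω)
    (h : ∀ z ∈ L, δ z ∈ L) : ∃ D : Derivation ℂ L L, ∀ z : L, ((D z : L) : Ω) = δ z := by
  refine ⟨Derivation.mk' { toFun := fun z => ⟨δ z, h z z.2⟩, map_add' := ?_, map_smul' := ?_ } ?_,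
    fun z => rfl⟩
  · intro a b
    apply Subtype.ext
    show δ (((a + b : L)) : Ω) = δ a + δ b
    rw [← map_add]; rfl
  · intro c a
    apply Subtype.ext
    show δ (((c • a : L)) : Ω) = c • δ a
    rw [← Derivation.map_smul]; rfl
  · intro a b
    apply Subtype.ext
    show δ (((a * b : L)) : Ω) = (a : Ω) * δ b + (b : Ω) * δ a
    have : (((a * b : L)) : Ω) = (a : Ω) * b := rfl
    rw [this, Derivation.leibniz, smul_eq_mul, smul_eq_mul]

/-- the family, from a derivation of the algebraic closure which kills the solution -/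
theorem family_of_der {K : Type} [Field K] [Algebra ℂ K] {m n r e : ℕ} (hm : m ≠ 0)
    (hgood : Good m e) (f : MvPolynomial (Fin n) ℂ) (hf : f ≠ 0) (x : Fin n → K) (w : K)
    (hx : AlgebraicIndependent ℂ x) (hw : w ^ m = aeval x f)
    (hgen : IntermediateField.adjoin ℂ (Set.range x ∪ {w}) = ⊤)
    (pd : Fin n → Derivation ℂ K K) (hpd : ∀ j l, pd j (x l) = if j = l then 1 else 0)
    (i : Fin n) (y : Unk n r e → AlgebraicClosure K)
    (hs : IsSol m (map (algebraMap ℂ (AlgebraicClosure K)) f)
      (fun j => algebraMap K (AlgebraicClosure K) (x j)) i y)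
    (δ : Derivation ℂ (AlgebraicClosure K) (AlgebraicClosure K))
    (hδ : ∀ u : K, δ (algebraMap K (AlgebraicClosure K) u) =
      ∑ j, vOf y j * algebraMap K (AlgebraicClosure K) (pd j u))
    (hδy : ∀ k, δ (y k) = 0) :
    ∃ (L : Type) (_ : Field L) (_ : Algebra ℂ L) (_ : Algebra K L) (_ : IsScalarTower ℂ K L)
      (_ : FiniteDimensional K L) (k : IntermediateField ℂ L) (N : ℕ) (p : Fin (N + 1) → L),
      AlmostHomogeneous k p ∧ ∀ u : K, IsAlgebraic k (algebraMap K L u) →
        ∑ j, vOf y j * algebraMap K (AlgebraicClosure K) (pd j u) = 0 := by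
  classical
  have hδx : ∀ l, δ (algebraMap K (AlgebraicClosure K) (x l)) = vOf y l := by
    intro l
    rw [hδ]
    rw [Finset.sum_eq_single l]
    · rw [hpd, if_pos rfl, map_one, mul_one]
    · intro j _ hj
      rw [hpd, if_neg hj, map_zero, mul_zero]
    · intro h; exact absurd (Finset.mem_univ l) h
  set L : IntermediateField K (AlgebraicClosure K) := IntermediateField.adjoin K (Set.range y) with hL
  have hyL : ∀ k, y k ∈ L := fun k => IntermediateField.subset_adjoin K _ ⟨k, rfl⟩
  have hfin : FiniteDimensional K L := by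
    rw [hL]
    haveI : Finite (Set.range y) := Set.finite_range y
    exact IntermediateField.finiteDimensional_adjoin
      (fun z _ => (AlgebraicClosure.isAlgebraic K).isAlgebraic z |>.isIntegral)
  have hpres : ∀ z ∈ L, δ z ∈ L := by
    intro z hz
    induction hz using IntermediateField.adjoin_induction with
    | mem z hz =>
      obtain ⟨k, rfl⟩ := hz
      rw [hδy]; exact zero_mem _
    | algebraMap u =>
      rw [hδ]
      exact sum_mem (fun j _ => mul_mem (hyL _) (L.algebraMap_mem _))
    | add a b ha hb h1 h2 => rw [map_add]; exact add_mem h1 h2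
    | inv a ha h1 =>
      rw [Derivation.leibniz_inv, smul_eq_mul]
      exact mul_mem (neg_mem (pow_mem (inv_mem ha) 2)) h1
    | mul a b ha hb h1 h2 =>
      rw [Derivation.leibniz, smul_eq_mul, smul_eq_mul]
      exact add_mem (mul_mem ha h2) (mul_mem hb h1)
  obtain ⟨D, hD⟩ := der_restrict L δ hpres
  -- the elements of `L`
  set yL : Unk n r e → L := fun k => ⟨y k, hyL k⟩ with hyLdef
  set xL : Fin n → L := fun j => algebraMap K L (x j) with hxLdef
  set wL : L := algebraMap K L w with hwLdef
  set bL : Fin n → L := fun j => xL j - xL i * yL (Sum.inl j) with hbLdef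
  set t : L := xL i with htdef
  have hxc : ∀ j, ((xL j : L) : AlgebraicClosure K) = algebraMap K (AlgebraicClosure K) (x j) :=
    fun j => rfl
  have hwc : ((wL : L) : AlgebraicClosure K) = algebraMap K (AlgebraicClosure K) w := rfl
  set k : IntermediateField ℂ L := IntermediateField.adjoin ℂ (Set.range yL ∪ Set.range bL) with hkdef
  have hyk : ∀ κ, yL κ ∈ k := fun κ => IntermediateField.subset_adjoin ℂ _ (Or.inl ⟨κ, rfl⟩)
  have hbk : ∀ j, bL j ∈ k := fun j => IntermediateField.subset_adjoin ℂ _ (Or.inr ⟨j, rfl⟩)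
  have hv1 : y (Sum.inl i) = 1 := hs.1
  have hDk : ∀ a ∈ k, D a = 0 := by
    intro a ha
    induction ha using IntermediateField.adjoin_induction with
    | mem a ha =>
      apply Subtype.ext
      rw [hD]
      rcases ha with ⟨κ, rfl⟩ | ⟨j, rfl⟩
      · exact hδy κ
      · show δ (algebraMap K (AlgebraicClosure K) (x j) -
          algebraMap K (AlgebraicClosure K) (x i) * y (Sum.inl j)) = 0
        rw [map_sub, Derivation.leibniz, hδy, smul_zero, zero_add, hδx, hδx, smul_eq_mul]
        show y (Sum.inl j) - y (Sum.inl j) * y (Sum.inl i) = 0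
        rw [hv1]; ring
    | algebraMap c => exact D.map_algebraMap c
    | add a b _ _ h1 h2 => rw [map_add, h1, h2, add_zero]
    | inv a _ h1 => rw [Derivation.leibniz_inv, h1, smul_zero]
    | mul a b _ _ h1 h2 => rw [Derivation.leibniz, h1, h2, smul_zero, smul_zero, add_zero]
  have hDt : D t ≠ 0 := by
    intro h
    have h1 := hD t
    rw [h] at h1
    have h2 : δ (algebraMap K (AlgebraicClosure K) (x i)) = 0 := h1.symm
    rw [hδx] at h2
    have h3 : y (Sum.inl i) = 0 := h2
    rw [hv1] at h3
    exact one_ne_zero h3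
  -- the equation
  have hw0 : w ≠ 0 := by
    intro h
    rw [h, zero_pow hm] at hw
    exact hf ((injective_iff_map_eq_zero _).1 hx f hw.symm)
  have hwL0 : wL ≠ 0 := by
    intro h
    exact hw0 ((map_eq_zero_iff _ (algebraMap K L).injective).1 h)
  have hcoe : ∀ (P : Polynomial L) (s : L), ((P.eval s : L) : AlgebraicClosure K) =
      (P.map (algebraMap L (AlgebraicClosure K))).eval (s : AlgebraicClosure K) := by
    intro P s
    rw [Polynomial.eval_map]
    exact (Polynomial.eval₂_at_apply (algebraMap L (AlgebraicClosure K)) s).symm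
  have heq : wL ^ m = (GOf yL).eval t ^ m * (QOf yL).eval t := by
    apply Subtype.ext
    have h1 : ((((GOf yL).eval t ^ m * (QOf yL).eval t : L)) : AlgebraicClosure K) =
        (((GOf yL).eval t : L) : AlgebraicClosure K) ^ m *
          (((QOf yL).eval t : L) : AlgebraicClosure K) := rfl
    have h2 : (((wL ^ m : L)) : AlgebraicClosure K) = algebraMap K (AlgebraicClosure K) (w ^ m) := by
      rw [map_pow]; rfl
    rw [h1, h2, hcoe, hcoe, map_GOf, map_QOf, hw]
    have h3 := congrArg (fun P : Polynomial (AlgebraicClosure K) =>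
      P.eval (algebraMap K (AlgebraicClosure K) (x i))) hs.2
    simp only [Polynomial.eval_mul, Polynomial.eval_pow] at h3
    have h4 := eval_res (map (algebraMap ℂ (AlgebraicClosure K)) f)
      (fun j => algebraMap K (AlgebraicClosure K) (x j)) (vOf y) i
    rw [h4] at h3
    have h5 : eval (fun j => algebraMap K (AlgebraicClosure K) (x j))
        (map (algebraMap ℂ (AlgebraicClosure K)) f) = algebraMap K (AlgebraicClosure K) (aeval x f) := by
      rw [MvPolynomial.eval_map]
      rw [show algebraMap K (AlgebraicClosure K) (aeval x f) =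
        aeval (fun j => algebraMap K (AlgebraicClosure K) (x j)) f from ?_]
      · rfl
      · have h6 := MvPolynomial.map_aeval x (algebraMap K (AlgebraicClosure K)) f
        rw [h6]
        rfl
    rw [h5] at h3
    exact h3
  have hG0 : (GOf yL).eval t ≠ 0 := by
    intro h
    rw [h, zero_pow hm, zero_mul] at heq
    exact hwL0 (pow_eq_zero_iff hm |>.1 heq)
  set w' : L := wL / (GOf yL).eval t with hw'def
  have hw'0 : w' ≠ 0 := div_ne_zero hwL0 hG0
  have hw'eq : w' ^ m = (QOf yL).eval t := by
    rw [hw'def, div_pow, heq, mul_div_cancel_left₀ _ (pow_ne_zero m hG0)]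
  -- generation
  have hgenL : IntermediateField.adjoin ℂ ((k : Set L) ∪ {t, w'}) = ⊤ := by
    set M : IntermediateField ℂ L := IntermediateField.adjoin ℂ ((k : Set L) ∪ {t, w'}) with hM
    have hkM : ∀ a ∈ k, a ∈ M := fun a ha => IntermediateField.subset_adjoin ℂ _ (Or.inl ha)
    have htM : t ∈ M := IntermediateField.subset_adjoin ℂ _ (Or.inr (Or.inl rfl))
    have hw'M : w' ∈ M := IntermediateField.subset_adjoin ℂ _ (Or.inr (Or.inr rfl))
    have hGM : (GOf yL).eval t ∈ M := eval_GOf_mem M yL (fun κ => hkM _ (hyk κ)) t htM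
    have hwM : wL ∈ M := by
      have : wL = w' * (GOf yL).eval t := by rw [hw'def, div_mul_cancel₀ _ hG0]
      rw [this]; exact mul_mem hw'M hGM
    have hxM : ∀ j, xL j ∈ M := by
      intro j
      have : xL j = bL j + t * yL (Sum.inl j) := by rw [hbLdef]; ring
      rw [this]
      exact add_mem (hkM _ (hbk j)) (mul_mem htM (hkM _ (hyk _)))
    have hKM : ∀ u : K, algebraMap K L u ∈ M := by
      intro u
      have hu : u ∈ IntermediateField.adjoin ℂ (Set.range x ∪ {w}) := by rw [hgen]; trivial
      induction hu using IntermediateField.adjoin_induction with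
      | mem a ha =>
        rcases ha with ⟨j, rfl⟩ | ha
        · exact hxM j
        · rw [Set.mem_singleton_iff] at ha
          rw [ha]; exact hwM
      | algebraMap c =>
        rw [← IsScalarTower.algebraMap_apply ℂ K L]
        exact M.algebraMap_mem c
      | add a b _ _ h1 h2 => rw [map_add]; exact add_mem h1 h2
      | inv a _ h1 => rw [map_inv₀]; exact inv_mem h1
      | mul a b _ _ h1 h2 => rw [map_mul]; exact mul_mem h1 h2
    have hall : ∀ (z : AlgebraicClosure K) (hz : z ∈ L), (⟨z, hz⟩ : L) ∈ M := by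
      intro z hz
      induction hz using IntermediateField.adjoin_induction with
      | mem a ha =>
        obtain ⟨κ, rfl⟩ := ha
        exact hkM _ (hyk κ)
      | algebraMap u => exact hKM u
      | add a b ha hb h1 h2 => exact add_mem h1 h2
      | inv a ha h1 => exact inv_mem h1
      | mul a b ha hb h1 h2 => exact mul_mem h1 h2
    rw [eq_top_iff]
    rintro ⟨z, hz⟩ _
    exact hall z hz
  obtain ⟨N, p, hp⟩ := hgood L k t w' (QOf yL) (coeff_QOf_mem k yL hyk) (natDegree_QOf yL) hw'eq hw'0
    hgenL ⟨D, hDk, hDt⟩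
  refine ⟨L, inferInstance, inferInstance, inferInstance, inferInstance, hfin, k, N, p, hp, ?_⟩
  intro u hu
  have h1 : D (algebraMap K L u) = 0 := DP.der_alg k D hDk hu
  have h2 := hD (algebraMap K L u)
  rw [h1] at h2
  have h3 : δ (algebraMap K (AlgebraicClosure K) u) = 0 := h2.symm
  rw [hδ] at h3
  exact h3

end Pool.Agent.CV
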