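import Pool.Agent.Lib_MP_1209e6_cv.Kill
import Pool.Agent.Lib_MP_1209e6_cv.Model
import Pool.Agent.Lib_MP_1209e6_cd.E5

/-! PIECE FAMILY: a nondegenerate solution gives a covering family. -/

set_option autoImplicit false

open MvPolynomial TrivSqZeroExt Pool.Agent.CampanaFlow

namespace Pool.Agent.CV

/-- derivations of `K = ℂ(x, w)`, `w ^ m = f(x)`, are determined by the values at `x` -/
theorem der_eq_zero_of_gen {K Ω : Type} [Field K] [Algebra ℂ K] [Field Ω] [Algebra ℂ Ω] [Algebra K Ω]
    [IsScalarTower ℂ K Ω] {m n : ℕ} (hm : m ≠ 0) (f : MvPolynomial (Fin n) ℂ) (x : Fin n → K) (w : K)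
    (hw : w ^ m = aeval x f) (hw0 : w ≠ 0)
    (hgen : IntermediateField.adjoin ℂ (Set.range x ∪ {w}) = ⊤)
    (E : Derivation ℂ K Ω) (hE : ∀ j, E (x j) = 0) (u : K) : E u = 0 := by
  have hc : CharZero Ω := charZero_of_injective_algebraMap (FaithfulSMul.algebraMap_injective ℂ Ω)
  have h1 : ∀ p : MvPolynomial (Fin n) ℂ, E (aeval x p) = 0 := by
    intro p
    induction p using MvPolynomial.induction_on with
    | C a => rw [algHom_C]; exact E.map_algebraMap a
    | add p q hp hq => rw [map_add, map_add, hp, hq, add_zero]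
    | mul_X p j hp => rw [map_mul, aeval_X, E.leibniz, hp, hE, smul_zero, smul_zero, add_zero]
  have h2 : E w = 0 := by
    have h3 := h1 f
    rw [← hw, E.leibniz_pow, ← Nat.cast_smul_eq_nsmul K, smul_smul] at h3
    have h4 : ((m : K) * w ^ (m - 1)) ≠ 0 := by
      have : CharZero K := charZero_of_injective_algebraMap (FaithfulSMul.algebraMap_injective ℂ K)
      exact mul_ne_zero (Nat.cast_ne_zero.2 hm) (pow_ne_zero _ hw0)
    exact (smul_eq_zero.1 h3).resolve_left h4
  have hu : u ∈ IntermediateField.adjoin ℂ (Set.range x ∪ {w}) := by rw [hgen]; trivial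
  refine IntermediateField.adjoin_induction (F := ℂ) (s := Set.range x ∪ {w})
    (p := fun a _ => E a = 0) ?_ ?_ ?_ ?_ ?_ hu
  · rintro a (⟨j, rfl⟩ | ha)
    · exact hE j
    · rw [Set.mem_singleton_iff.1 ha]; exact h2
  · intro c
    exact E.map_algebraMap c
  · intro a b _ _ ha hb
    rw [map_add, ha, hb, add_zero]
  · intro a _ ha
    rw [Derivation.leibniz_inv, ha, smul_zero]
  · intro a b _ _ ha hb
    rw [E.leibniz, ha, hb, smul_zero, smul_zero, add_zero]

/-- Proof. `δ₀ = ∑_j v_j ∂_j : K → Ω` extends to a derivation `δ` of the algebraic closure `Ω` with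
`δ x_j = v_j`; `δ (y k) = 0` by `kill`. `L = K(y)` in `Ω` (finite over `K`, as `Ω` is algebraic over `K`);
`δ` maps `L` to `L` (it maps `K` to `K(v)`, and kills `y`). `k = ℂ(y, b) ≤ L`, `b_j = x_j - x_i v_j`,
`δ b_j = v_j - v_j = 0`. `t = x_i`, `δ t = 1`; `w ^ m = f(x) = res(t) = G(t) ^ m * Q(t)`, `G(t) ≠ 0` as `w ≠ 0`
(`f ≠ 0` and `x` is algebraically independent), `w' = w / G(t)`, `w' ^ m = Q(t)`; `L = k(t, w')`, as
`x_j = b_j + t v_j`. `hgood` with `D = δ` on `L`. If `u` is algebraic over `k` then `δ u = 0` (characteristic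
zero, `δ` kills `k`). -/
theorem exists_family {K : Type} [Field K] [Algebra ℂ K] {m n r e : ℕ} (hm : m ≠ 0)
    (hgood : Good m e) (f : MvPolynomial (Fin n) ℂ) (hf : f ≠ 0) (x : Fin n → K) (w : K)
    (hx : AlgebraicIndependent ℂ x) (hw : w ^ m = aeval x f)
    (hgen : IntermediateField.adjoin ℂ (Set.range x ∪ {w}) = ⊤)
    (pd : Fin n → Derivation ℂ K K) (hpd : ∀ j l, pd j (x l) = if j = l then 1 else 0)
    (i : Fin n) (y : Unk n r e → AlgebraicClosure K)
    (hs : IsSol m (map (algebraMap ℂ (AlgebraicClosure K)) f)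
      (fun j => algebraMap K (AlgebraicClosure K) (x j)) i y)
    (hr : Rigid m (map (algebraMap ℂ (AlgebraicClosure K)) f)
      (fun j => algebraMap K (AlgebraicClosure K) (x j)) i y) :
    ∃ (L : Type) (_ : Field L) (_ : Algebra ℂ L) (_ : Algebra K L) (_ : IsScalarTower ℂ K L)
      (_ : FiniteDimensional K L) (k : IntermediateField ℂ L) (N : ℕ) (p : Fin (N + 1) → L),
      AlmostHomogeneous k p ∧ ∀ u : K, IsAlgebraic k (algebraMap K L u) →
        ∑ j, vOf y j * algebraMap K (AlgebraicClosure K) (pd j u) = 0 := by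
  classical
  have hw0 : w ≠ 0 := by
    rintro rfl
    rw [zero_pow hm] at hw
    exact hf ((injective_iff_map_eq_zero _).1 hx f hw.symm)
  have hxΩ : AlgebraicIndependent ℂ (fun j => algebraMap K (AlgebraicClosure K) (x j)) :=
    hx.map' (f := IsScalarTower.toAlgHom ℂ K (AlgebraicClosure K))
      (algebraMap K (AlgebraicClosure K)).injective
  obtain ⟨D, hD⟩ := Pool.Agent.Campana.exists_derivation _ hxΩ (vOf y)
  have hy : ∀ k, D (y k) = 0 := kill f _ i y hs hr D hD
  have hDG : ∀ l, D ((GOf y).coeff l) = 0 := by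
    intro l
    rw [GOf, Polynomial.coeff_add, Polynomial.finsetSum_coeff, map_add, map_sum]
    have h1 : D ((1 : Polynomial (AlgebraicClosure K)).coeff l) = 0 := by
      rw [Polynomial.coeff_one]
      split_ifs
      · exact D.map_one_eq_zero
      · exact map_zero D
    rw [h1, zero_add]
    refine Finset.sum_eq_zero fun k _ => ?_
    rw [Polynomial.coeff_C_mul, Polynomial.coeff_X_pow]
    split_ifs
    · rw [mul_one]; exact hy _
    · rw [mul_zero, map_zero]
  have hDQ : ∀ l, D ((QOf y).coeff l) = 0 := by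
    intro l
    rw [QOf, Polynomial.finsetSum_coeff, map_sum]
    refine Finset.sum_eq_zero fun k _ => ?_
    rw [Polynomial.coeff_C_mul, Polynomial.coeff_X_pow]
    split_ifs
    · rw [mul_one]; exact hy _
    · rw [mul_zero, map_zero]
  have hQdeg : (QOf y).natDegree ≤ e := by
    rw [QOf]
    refine Polynomial.natDegree_sum_le_of_forall_le _ _ fun k _ => ?_
    exact (Polynomial.natDegree_C_mul_X_pow_le _ _).trans (by omega)
  have hGQ : aeval (fun j => Polynomial.C (algebraMap K (AlgebraicClosure K) (x j)) +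
      (Polynomial.X - Polynomial.C (algebraMap K (AlgebraicClosure K) (x i))) *
        Polynomial.C (vOf y j)) f = GOf y ^ m * QOf y := by
    rw [← hs.2, res, aeval_map_algebraMap]
    congr 2
    funext j
    rw [line, Polynomial.C_sub, Polynomial.C_mul]
    ring
  obtain ⟨L, hfin, k, t, w', q, D', hqk, hq, -, ht, hw', hw'0, hgenL, hD', hD'k, hD't, -⟩ :=
    Pool.Agent.CYD.exists_pair x w hgen f m hm hw hw0 (vOf y) i hs.1 (GOf y) (QOf y) hGQ D hD
      (fun j => hy _) hDG hDQ
  have hqe : q.natDegree ≤ e := by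
    rw [← Polynomial.natDegree_map_eq_of_injective (algebraMap L (AlgebraicClosure K)).injective q, hq]
    exact hQdeg
  obtain ⟨N, p, hp⟩ := hgood L k t w' q hqk hqe hw' hw'0 hgenL
    ⟨D', hD'k, by rw [hD't]; exact one_ne_zero⟩
  refine ⟨L, inferInstance, inferInstance, inferInstance, inferInstance, hfin, k, N, p, hp, ?_⟩
  intro u hu
  have h1 : D' (algebraMap K L u) = 0 := Pool.Agent.Campana.derivation_eq_zero D' k hD'k _ hu
  have h2 : D (algebraMap K (AlgebraicClosure K) u) = 0 := by
    have h3 := hD' (algebraMap K L u)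
    rw [h1] at h3
    exact h3.symm
  let E : Derivation ℂ K (AlgebraicClosure K) := D.compAlgebraMap K -
    ∑ j, vOf y j • ((Algebra.linearMap K (AlgebraicClosure K)).compDer (pd j))
  have hEv : ∀ a : K, E a = D (algebraMap K (AlgebraicClosure K) a) -
      ∑ j, vOf y j * algebraMap K (AlgebraicClosure K) (pd j a) := by
    intro a
    show (D.compAlgebraMap K -
      ∑ j, vOf y j • ((Algebra.linearMap K (AlgebraicClosure K)).compDer (pd j))) a = _
    rw [Derivation.sub_apply]
    congr 1
    have h3 : ∀ s : Finset (Fin n),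
        (∑ j ∈ s, vOf y j • ((Algebra.linearMap K (AlgebraicClosure K)).compDer (pd j))) a =
          ∑ j ∈ s, vOf y j * algebraMap K (AlgebraicClosure K) (pd j a) := by
      intro s
      induction s using Finset.induction_on with
      | empty => rfl
      | insert j s hj ih =>
        rw [Finset.sum_insert hj, Finset.sum_insert hj, Derivation.add_apply, ih]
        rfl
    exact h3 _
  have hE := der_eq_zero_of_gen hm f x w hw hw0 hgen E (fun l => by
    rw [hEv, hD, sub_eq_zero, Finset.sum_eq_single l]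
    · rw [hpd, if_pos rfl, map_one, mul_one]
    · intro j _ hj
      rw [hpd, if_neg hj, map_zero, mul_zero]
    · intro h; exact absurd (Finset.mem_univ l) h) u
  rw [hEv, h2, zero_sub, neg_eq_zero] at hE
  exact hE

end Pool.Agent.CV
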