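import Pool.Agent.Lib_MP_1209e6_cv.Defs
import Pool.Agent.Lib_MP_1209e6_cy.SquareDual

/-! PIECE GEN: a square system with rational coefficients which has one nondegenerate complex solution has
a nondegenerate solution at every general parameter, over every algebraically closed field. -/

set_option autoImplicit false

open MvPolynomial TrivSqZeroExt

namespace Pool.Agent.CV

/-- a polynomial in parameters and unknowns as a polynomial in the unknowns -/
noncomputable def genConv (ι κ : Type) : MvPolynomial (ι ⊕ κ) ℚ →ₐ[ℚ] MvPolynomial κ (MvPolynomial ι ℚ) :=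
  aeval (Sum.elim (fun i => C (X i)) X)

theorem eval₂_genConv {ι κ : Type} {S : Type} [CommRing S] [Algebra ℚ S] (φ : MvPolynomial ι ℚ →ₐ[ℚ] S)
    (y : κ → S) (p : MvPolynomial (ι ⊕ κ) ℚ) :
    eval₂ (φ : MvPolynomial ι ℚ →+* S) y (genConv ι κ p) =
      aeval (Sum.elim (fun i => φ (X i)) y) p := by
  have h1 : (eval₂Hom (φ : MvPolynomial ι ℚ →+* S) y).comp (genConv ι κ : MvPolynomial (ι ⊕ κ) ℚ →+* _) =
      (aeval (Sum.elim (fun i => φ (X i)) y) : MvPolynomial (ι ⊕ κ) ℚ →ₐ[ℚ] S) := by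
    refine MvPolynomial.ringHom_ext (fun a => ?_) (fun i => ?_)
    · exact DFunLike.congr_fun (Subsingleton.elim
        (((eval₂Hom (φ : MvPolynomial ι ℚ →+* S) y).comp
          (genConv ι κ : MvPolynomial (ι ⊕ κ) ℚ →+* _)).comp C)
        (((aeval (Sum.elim (fun i => φ (X i)) y) : MvPolynomial (ι ⊕ κ) ℚ →ₐ[ℚ] S) :
          MvPolynomial (ι ⊕ κ) ℚ →+* S).comp C)) a
    · rcases i with i | i
      · simp [genConv]
      · simp [genConv]
  exact DFunLike.congr_fun h1 p

/-- Proof: the system is standard smooth of relative dimension zero where the Jacobian does not vanish, so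
flat, so open. -/
theorem exists_gen {ι κ μ : Type} [Finite ι] [Finite κ] [Finite μ] (hcard : Nat.card κ = Nat.card μ)
    (F : μ → MvPolynomial (ι ⊕ κ) ℚ) (d : MvPolynomial (ι ⊕ κ) ℚ) (a : ι → ℂ) (y : κ → ℂ)
    (hF : ∀ l, aeval (Sum.elim a y) (F l) = 0)
    (hJ : ∀ z : κ → ℂ, (∀ l, aeval (Sum.elim (fun i => inl (a i)) (dual y z)) (F l) = 0) → z = 0)
    (hd : aeval (Sum.elim a y) d ≠ 0) :
    ∃ R : MvPolynomial ι ℚ, R ≠ 0 ∧ ∀ (Ω : Type) [Field Ω] [CharZero Ω] [IsAlgClosed Ω] (c : ι → Ω),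
      aeval c R ≠ 0 → ∃ y : κ → Ω, (∀ l, aeval (Sum.elim c y) (F l) = 0) ∧
        (∀ z : κ → Ω, (∀ l, aeval (Sum.elim (fun i => inl (c i)) (dual y z)) (F l) = 0) → z = 0) ∧
        aeval (Sum.elim c y) d ≠ 0 := by
  classical
  have _ : Fintype κ := Fintype.ofFinite κ
  let E : κ ≃ μ := (Finite.card_eq.mp hcard).some
  let F' : κ → MvPolynomial κ (MvPolynomial ι ℚ) := fun k => genConv ι κ (F (E k))
  have key : ∀ {Ω : Type} [Field Ω] [CharZero Ω] (c : ι → Ω) (y : κ → Ω) (p : MvPolynomial (ι ⊕ κ) ℚ),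
      eval₂ ((aeval c : MvPolynomial ι ℚ →ₐ[ℚ] Ω) : MvPolynomial ι ℚ →+* Ω) y (genConv ι κ p) =
        aeval (Sum.elim c y) p := by
    intro Ω _ _ c y p
    rw [eval₂_genConv]
    simp only [aeval_X]
  have keyD : ∀ {Ω : Type} [Field Ω] [CharZero Ω] (c : ι → Ω) (y z : κ → Ω)
      (p : MvPolynomial (ι ⊕ κ) ℚ),
      eval₂ ((algebraMap Ω (DualNumber Ω)).comp
        ((aeval c : MvPolynomial ι ℚ →ₐ[ℚ] Ω) : MvPolynomial ι ℚ →+* Ω))
        (fun s => algebraMap Ω (DualNumber Ω) (y s) + z s • (DualNumber.eps : DualNumber Ω))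
        (genConv ι κ p) =
      aeval (Sum.elim (fun i => inl (c i)) (dual y z)) p := by
    intro Ω _ _ c y z p
    have h1 := eval₂_genConv (S := DualNumber Ω)
      (((Algebra.ofId Ω (DualNumber Ω)).restrictScalars ℚ).comp
        (aeval c : MvPolynomial ι ℚ →ₐ[ℚ] Ω))
      (fun s => algebraMap Ω (DualNumber Ω) (y s) + z s • (DualNumber.eps : DualNumber Ω)) p
    refine Eq.trans ?_ (h1.trans ?_)
    · rfl
    · congr 2
      funext t
      rcases t with t | t
      · simp [Algebra.ofId_apply]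
        rfl
      · simp only [Sum.elim_inr, dual]
        ext
        · simp
          rfl
        · simp
          rfl
  obtain ⟨S, hS, H⟩ := Pool.Agent.CalabiYauN.generic_solution F' (genConv ι κ d)
    ((aeval a : MvPolynomial ι ℚ →ₐ[ℚ] ℂ) : MvPolynomial ι ℚ →+* ℂ) y
    (fun k => by rw [key]; exact hF (E k))
    ((Pool.Agent.CalabiYauN.jac_ne_zero_iff F' _ y (fun k => by
      change eval₂ _ y (genConv ι κ (F (E k))) = 0
      rw [key]; exact hF (E k))).mpr (fun z hz => hJ z (fun l => by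
        have := hz (E.symm l)
        change eval₂ _ _ (genConv ι κ (F (E (E.symm l)))) = 0 at this
        rw [keyD, E.apply_symm_apply] at this
        exact this)))
    (by rw [key]; exact hd)
  refine ⟨S, fun h => hS (by rw [h, map_zero]), ?_⟩
  intro Ω _ _ _ c hc
  obtain ⟨y, hy1, hy2, hy3⟩ := H Ω ((aeval c : MvPolynomial ι ℚ →ₐ[ℚ] Ω) : MvPolynomial ι ℚ →+* Ω) hc
  refine ⟨y, fun l => ?_, fun z hz => ?_, ?_⟩
  · have := hy1 (E.symm l)
    change eval₂ _ _ (genConv ι κ (F (E (E.symm l)))) = 0 at this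
    rw [key, E.apply_symm_apply] at this
    exact this
  · refine (Pool.Agent.CalabiYauN.jac_ne_zero_iff F' _ y hy1).mp hy2 z (fun k => ?_)
    change eval₂ _ _ (genConv ι κ (F (E k))) = 0
    rw [keyD]
    exact hz (E k)
  · rw [← key]
    exact hy3

end Pool.Agent.CV
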