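import Mathlib

/-!
# The kernel of the Jacobian at the base point (pure polynomial algebra)
-/

set_option autoImplicit false

namespace Pool.Agent.CV.Kern

open Polynomial Finset

variable {F : Type*} [Field F]

theorem isCoprime_X_one_add : IsCoprime (X : F[X]) (1 + X) := by
  refine ⟨-1, 1, ?_⟩
  ring

/-- a power of `1 + X` which divides `X ^ 2 * p` divides `p`; so `p = 0` if its degree is smaller -/
theorem eq_zero_of_dvd {p q : F[X]} {N : ℕ} (hdeg : p.degree < N)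
    (h : X ^ 2 * p = (1 + X) ^ N * q) : p = 0 := by
  have hdvd : (1 + X : F[X]) ^ N ∣ X ^ 2 * p := ⟨q, h⟩
  have hcop : IsCoprime ((1 + X : F[X]) ^ N) (X ^ 2) :=
    (isCoprime_X_one_add.symm).pow
  have h2 : (1 + X : F[X]) ^ N ∣ p := hcop.dvd_of_dvd_mul_left hdvd
  by_contra hp
  have h3 := Polynomial.degree_le_of_dvd h2 hp
  have h4 : ((1 + X : F[X]) ^ N).degree = N := by
    rw [Polynomial.degree_pow, add_comm, show (1 : F[X]) = C 1 from rfl, degree_X_add_C]
    simp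
  rw [h4] at h3
  exact absurd (lt_of_le_of_lt h3 hdeg) (lt_irrefl _)

theorem sum_coeff {ι : Type*} (s : Finset ι) (σ : ι → ℕ) (hσ : Set.InjOn σ s) (η : ι → F)
    (j : ι) (hj : j ∈ s) : (∑ i ∈ s, C (η i) * (X : F[X]) ^ (σ i)).coeff (σ j) = η j := by
  rw [finset_sum_coeff]
  rw [Finset.sum_eq_single j]
  · simp
  · intro b hb hbj
    rw [coeff_C_mul, coeff_X_pow, if_neg, mul_zero]
    intro h
    exact hbj (hσ hb hj h.symm)
  · intro h; exact absurd hj h

theorem kernel [CharZero F] {ι : Type*} {m r N : ℕ} (hm : 1 ≤ m) (hN : N = (m - 1) * r)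
    (s : Finset ι) (σ : ι → ℕ) (hσ : Set.InjOn σ s) (hlt : ∀ j ∈ s, σ j < N)
    (η : ι → F) (γ κ : F[X]) (hγ0 : γ.coeff 0 = 0) (hγ : γ.natDegree ≤ r)
    (h : X * ∑ j ∈ s, C (η j) * X ^ (1 + σ j) =
      (m : F[X]) * ((1 + X) ^ r) ^ (m - 1) * (1 - C ((m : F) * r) * X) * γ
        + ((1 + X) ^ r) ^ m * κ) :
    (∀ j ∈ s, η j = 0) ∧ γ = 0 ∧ κ = 0 := by
  have hG : ((1 + X : F[X]) ^ r) ≠ 0 := by
    apply pow_ne_zero
    rw [add_comm, show (1 : F[X]) = C 1 from rfl]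
    exact X_add_C_ne_zero _
  have h1 : X ^ 2 * ∑ j ∈ s, C (η j) * (X : F[X]) ^ (σ j) =
      (1 + X) ^ N * ((m : F[X]) * (1 - C ((m : F) * r) * X) * γ + (1 + X) ^ r * κ) := by
    have e1 : X * ∑ j ∈ s, C (η j) * (X : F[X]) ^ (1 + σ j) =
        X ^ 2 * ∑ j ∈ s, C (η j) * (X : F[X]) ^ (σ j) := by
      rw [Finset.mul_sum, Finset.mul_sum]
      refine Finset.sum_congr rfl (fun j _ => ?_)
      rw [pow_add]; ring
    rw [← e1, h, hN, mul_comm (m - 1) r, pow_mul]
    have e2 : ((1 + X : F[X]) ^ r) ^ m = ((1 + X) ^ r) ^ (m - 1) * (1 + X) ^ r := by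
      rw [← pow_succ]; congr 1; omega
    rw [e2]; ring
  have h2 : (∑ j ∈ s, C (η j) * (X : F[X]) ^ (σ j)) = 0 := by
    refine eq_zero_of_dvd (N := N) ?_ h1
    refine (Polynomial.degree_sum_le _ _).trans_lt ?_
    refine (Finset.sup_lt_iff (WithBot.bot_lt_coe N)).2 (fun j hj => ?_)
    refine (degree_C_mul_X_pow_le _ _).trans_lt ?_
    exact Nat.cast_lt.2 (hlt j hj)
  have h3 : ∀ j ∈ s, η j = 0 := by
    intro j hj
    rw [← sum_coeff s σ hσ η j hj, h2, coeff_zero]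
  refine ⟨h3, ?_⟩
  rw [h2, mul_zero] at h1
  have h4 : (m : F[X]) * (1 - C ((m : F) * r) * X) * γ + (1 + X) ^ r * κ = 0 := by
    rcases mul_eq_zero.1 h1.symm with h5 | h5
    · exfalso
      have : (1 + X : F[X]) ≠ 0 := by
        rw [add_comm, show (1 : F[X]) = C 1 from rfl]
        exact X_add_C_ne_zero _
      exact pow_ne_zero N this h5
    · exact h5
  -- `1 + X` is prime to `Q0`
  have hm0 : (m : F) ≠ 0 := by exact_mod_cast (by omega : m ≠ 0)
  have hc : (1 + (m : F) * r) ≠ 0 := by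
    have : ((1 + m * r : ℕ) : F) ≠ 0 := by exact_mod_cast (by omega : 1 + m * r ≠ 0)
    simpa using this
  have hcop : IsCoprime (1 + X : F[X]) (1 - C ((m : F) * r) * X) := by
    -- `C (m r) * (1 + X) + (1 - C (m r) X) = C (1 + m r)`
    refine ⟨C ((1 + (m : F) * r)⁻¹ * ((m : F) * r)), C ((1 + (m : F) * r)⁻¹), ?_⟩
    have e : C ((1 + (m : F) * r)⁻¹ * ((m : F) * r)) * (1 + X) +
        C ((1 + (m : F) * r)⁻¹) * (1 - C ((m : F) * r) * X) =
        C ((1 + (m : F) * r)⁻¹ * (1 + (m : F) * r)) := by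
      simp only [C_mul, C_add, C_1]
      ring
    rw [e, inv_mul_cancel₀ hc, C_1]
  have hcop2 : IsCoprime ((1 + X : F[X]) ^ r) ((m : F[X]) * (1 - C ((m : F) * r) * X)) := by
    apply IsCoprime.pow_left
    have : IsUnit (m : F[X]) := by
      have e : (m : F[X]) = C (m : F) := by simp
      rw [e]
      exact isUnit_C.2 (isUnit_iff_ne_zero.2 hm0)
    exact (isCoprime_mul_unit_left_right this _ _).2 hcop
  have hdvd : (1 + X : F[X]) ^ r ∣ γ := by
    apply hcop2.dvd_of_dvd_mul_left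
    refine ⟨-κ, ?_⟩
    linear_combination h4
  have hγz : γ = 0 := by
    obtain ⟨c, hc2⟩ := hdvd
    by_cases hγ1 : γ = 0
    · exact hγ1
    · exfalso
      have hc0 : c ≠ 0 := by rintro rfl; rw [mul_zero] at hc2; exact hγ1 hc2
      have hd : γ.natDegree = r + c.natDegree := by
        rw [hc2, natDegree_mul hG hc0, natDegree_pow, add_comm (1 : F[X]) X,
          show (1 : F[X]) = C 1 from rfl, natDegree_X_add_C, mul_one]
      have hc3 : c.natDegree = 0 := by omega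
      obtain ⟨c0, hc4⟩ := natDegree_eq_zero.1 hc3
      rw [hc2, ← hc4, coeff_zero_eq_eval_zero] at hγ0
      simp at hγ0
      rw [← hc4, hγ0, C_0] at hc0
      exact hc0 rfl
  refine ⟨hγz, ?_⟩
  rw [hγz, mul_zero, zero_add] at h4
  exact (mul_eq_zero.1 h4).resolve_left hG

end Pool.Agent.CV.Kern
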