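import Mathlib

set_option autoImplicit false

open MvPolynomial

namespace Pool.Agent.CV

/-- the line through the moving point -/
theorem kl_gen {O A : Type*} [CommRing O] [Algebra ℂ O] [CommRing A] [Algebra ℂ A]
    (ι φ : O →ₐ[ℂ] A) (ε : A) {n m : ℕ}
    (f : MvPolynomial (Fin n) ℂ) (x v : Fin n → O) (i : Fin n) (G Q : Polynomial O)
    (hv : φ (v i) = 1) (hx : ∀ j, φ (x j) = ι (x j) + ε * φ (v j))
    (h : aeval (fun j => Polynomial.C (x j) +
      (Polynomial.X - Polynomial.C (x i)) * Polynomial.C (v j)) f = G ^ m * Q) :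
    aeval (fun j => Polynomial.C (ι (x j)) + (Polynomial.X - Polynomial.C (ι (x i))) *
        Polynomial.C (φ (v j))) f =
      (G.map (φ : O →+* A)) ^ m * Q.map (φ : O →+* A) := by
  have h1 := congrArg (Polynomial.mapAlgHom φ) h
  rw [MvPolynomial.comp_aeval_apply, map_mul, map_pow] at h1
  refine Eq.trans ?_ h1
  congr 2
  funext j
  simp only [map_add, map_mul, map_sub, Polynomial.coe_mapAlgHom, Polynomial.map_C,
    Polynomial.map_X, RingHom.coe_coe]
  have h3 : φ (x i) = ι (x i) + ε := by
    rw [hx, hv, mul_one]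
  rw [hx j, h3]
  simp only [map_add, map_mul]
  ring

/-- a derivation as an algebra homomorphism to the dual numbers -/
noncomputable def kl_hom {O : Type*} [CommRing O] [Algebra ℂ O] (d : Derivation ℂ O O) :
    O →ₐ[ℂ] DualNumber O where
  toFun y := TrivSqZeroExt.inl y + TrivSqZeroExt.inr (d y)
  map_one' := by
    rw [Derivation.map_one_eq_zero]
    simp
  map_mul' a b := by
    ext
    · simp
    · simp [Derivation.leibniz, mul_comm]
  map_zero' := by simp
  map_add' a b := by
    ext
    · simp
    · simp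
  commutes' r := by
    rw [Derivation.map_algebraMap]
    ext
    · simp [TrivSqZeroExt.algebraMap_eq_inl']
    · simp [TrivSqZeroExt.algebraMap_eq_inl']

theorem kl_fst {O : Type*} [CommRing O] [Algebra ℂ O] (d : Derivation ℂ O O) (y : O) :
    (kl_hom d y).fst = y := by
  simp [kl_hom]

theorem kl_snd {O : Type*} [CommRing O] [Algebra ℂ O] (d : Derivation ℂ O O) (y : O) :
    (kl_hom d y).snd = d y := by
  simp [kl_hom]

theorem kl_dual {O : Type*} [CommRing O] [Algebra ℂ O] (d : Derivation ℂ O O) {n m : ℕ}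
    (f : MvPolynomial (Fin n) ℂ) (x v : Fin n → O) (i : Fin n) (G Q : Polynomial O)
    (hv : v i = 1) (hdx : ∀ j, d (x j) = v j)
    (h : aeval (fun j => Polynomial.C (x j) +
      (Polynomial.X - Polynomial.C (x i)) * Polynomial.C (v j)) f = G ^ m * Q) :
    aeval (fun j => Polynomial.C (algebraMap O (DualNumber O) (x j)) +
      (Polynomial.X - Polynomial.C (algebraMap O (DualNumber O) (x i))) *
        Polynomial.C (kl_hom d (v j))) f =
      (G.map (kl_hom d : O →+* DualNumber O)) ^ m * Q.map (kl_hom d : O →+* DualNumber O) := by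
  refine kl_gen (TrivSqZeroExt.inlAlgHom ℂ O O) (kl_hom d) (DualNumber.eps) f x v i G Q ?_ ?_ h
  · rw [hv, map_one]
  · intro j
    ext
    · simp [kl_hom]
    · simp [kl_hom, hdx]

end Pool.Agent.CV
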