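import Pool.Agent.Lib_MP_1209e6_cv.Defs
import Pool.Agent.Lib_MP_1209e6_cv.KillDual

/-! PIECE KILL: the derivation in the direction `v` kills the solution. -/

set_option autoImplicit false

open MvPolynomial TrivSqZeroExt

namespace Pool.Agent.CV

theorem kl_GOf {S S' : Type*} [CommRing S] [CommRing S'] {n r e : ℕ} (φ : S →+* S')
    (y : Unk n r e → S) : GOf (fun k => φ (y k)) = (GOf y).map φ := by
  unfold GOf
  rw [Polynomial.map_add, Polynomial.map_one, Polynomial.map_sum]
  congr 1
  refine Finset.sum_congr rfl fun k _ => ?_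
  rw [Polynomial.map_mul, Polynomial.map_C, Polynomial.map_pow, Polynomial.map_X]

theorem kl_QOf {S S' : Type*} [CommRing S] [CommRing S'] {n r e : ℕ} (φ : S →+* S')
    (y : Unk n r e → S) : QOf (fun k => φ (y k)) = (QOf y).map φ := by
  unfold QOf
  rw [Polynomial.map_sum]
  refine Finset.sum_congr rfl fun k _ => ?_
  rw [Polynomial.map_mul, Polynomial.map_C, Polynomial.map_pow, Polynomial.map_X]

/-- Proof. `u ↦ inl u + inr (δ u)` is a ring homomorphism `Ω → Ω[ε]`; it maps the solution `y` to a solution
`dual y (δ y)` of the system at `(f, dual x v)`, and over the dual numbers the system at `(f, dual x v)` is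
the system at `(f, x)`, because `b = x - x_i v` has the same value (`v_i = 1`, `δ v_i = 0`). So `δ y = 0` by
`Rigid`. -/
theorem kill {Ω : Type} [Field Ω] [Algebra ℂ Ω] {m n r e : ℕ} (f : MvPolynomial (Fin n) ℂ)
    (x : Fin n → Ω) (i : Fin n) (y : Unk n r e → Ω) (hs : IsSol m (map (algebraMap ℂ Ω) f) x i y)
    (hr : Rigid m (map (algebraMap ℂ Ω) f) x i y) (δ : Derivation ℂ Ω Ω)
    (hδ : ∀ j, δ (x j) = vOf y j) (k : Unk n r e) : δ (y k) = 0 := by
  let φ : Ω →+* DualNumber Ω := (kl_hom δ : Ω →+* DualNumber Ω)
  have hφ : ∀ u, φ u = inl u + inr (δ u) := fun _ => rfl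
  have hφc : ∀ c : ℂ, φ (algebraMap ℂ Ω c) = inl (algebraMap ℂ Ω c) := by
    intro c
    rw [hφ, δ.map_algebraMap, inr_zero, add_zero]
  have hv : y (Sum.inl i) = 1 := hs.1
  have hd : (dual y fun k => δ (y k)) = fun k => φ (y k) := rfl
  have h1 : IsSol m (map (inlHom Ω Ω) (map (algebraMap ℂ Ω) f)) (fun j => inl (x j)) i
      (dual y fun k => δ (y k)) := by
    rw [hd]
    constructor
    · show φ (y (Sum.inl i)) = 1
      rw [hv, map_one]
    · rw [kl_GOf, kl_QOf, ← Polynomial.map_pow, ← Polynomial.map_mul, ← hs.2]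
      unfold res
      rw [aeval_def, aeval_def, eval₂_map, eval₂_map, eval₂_map,
        ← Polynomial.coe_mapRingHom, eval₂_comp_left]
      have hA : ((algebraMap (DualNumber Ω) (Polynomial (DualNumber Ω))).comp (inlHom Ω Ω)).comp
          (algebraMap ℂ Ω) = (Polynomial.mapRingHom φ).comp
            ((algebraMap Ω (Polynomial Ω)).comp (algebraMap ℂ Ω)) := by
        refine RingHom.ext fun c => ?_
        show Polynomial.C (inlHom Ω Ω (algebraMap ℂ Ω c)) =
          Polynomial.map φ (Polynomial.C (algebraMap ℂ Ω c))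
        rw [Polynomial.map_C, hφc]
        rfl
      have hB : line (fun j => (inl (x j) : DualNumber Ω)) (vOf fun k => φ (y k)) i =
          (Polynomial.mapRingHom φ : Polynomial Ω → Polynomial (DualNumber Ω)) ∘
            line x (vOf y) i := by
        funext j
        have h3 : φ (x j - x i * vOf y j) = inl (x j) - inl (x i) * φ (y (Sum.inl j)) := by
          rw [map_sub, map_mul, hφ, hφ (x i), hδ, hδ, show vOf y i = 1 from hv]
          show inl (x j) + inr (y (Sum.inl j)) - (inl (x i) + inr 1) * φ (y (Sum.inl j)) = _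
          have h4 : (inr 1 : DualNumber Ω) * φ (y (Sum.inl j)) = inr (y (Sum.inl j)) := by
            rw [hφ]
            ext
            · simp
            · simp
          rw [add_mul, h4]
          ring
        show Polynomial.C ((inl (x j) : DualNumber Ω) - inl (x i) * φ (y (Sum.inl j))) +
          Polynomial.X * Polynomial.C (φ (y (Sum.inl j))) =
            Polynomial.map φ (Polynomial.C (x j - x i * vOf y j) +
              Polynomial.X * Polynomial.C (vOf y j))
        rw [Polynomial.map_add, Polynomial.map_mul, Polynomial.map_C, Polynomial.map_C,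
          Polynomial.map_X, h3]
        rfl
      rw [hA, hB]
  exact congrFun (hr _ h1) k

end Pool.Agent.CV
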