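import Pool.Agent.Lib_MP_1209e6_cv.Coef
import Pool.Agent.Lib_MP_1209e6_cv.Family
import Pool.Agent.Lib_MP_1209e6_cv.Const

/-! PIECE MAIN: the covering families of a general cyclic cover. -/

set_option autoImplicit false

open MvPolynomial TrivSqZeroExt Pool.Agent.CampanaFlow

namespace Pool.Agent.CV

/-- the families -/
theorem exists_families {m r e n d : ℕ} (hm : 2 ≤ m) (he : 1 ≤ e) (hn : n = (m - 1) * r + 1)
    (hd : d = m * r + e) (hd2 : n + 1 ≤ d) (hgood : Good m e) :
    ∃ R : MvPolynomial (Mon n d) ℚ, R ≠ 0 ∧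
      ∀ f : MvPolynomial (Fin n) ℂ, f.totalDegree ≤ d → aeval (fun s : Mon n d => f.coeff s.1) R ≠ 0 →
        ∀ (K : Type) [Field K] [Algebra ℂ K] (x : Fin n → K) (w : K),
          AlgebraicIndependent ℂ x → w ^ m = aeval x f →
          IntermediateField.adjoin ℂ (Set.range x ∪ {w}) = ⊤ →
          ∃ (L : Fin n → Type) (_ : ∀ i, Field (L i)) (_ : ∀ i, Algebra ℂ (L i))
            (_ : ∀ i, Algebra K (L i)) (_ : ∀ i, IsScalarTower ℂ K (L i))
            (_ : ∀ i, FiniteDimensional K (L i)) (k : ∀ i, IntermediateField ℂ (L i))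
            (N : Fin n → ℕ) (p : ∀ i, Fin (N i + 1) → L i),
            (∀ i, AlmostHomogeneous (k i) (p i)) ∧
              ∀ u : K, (∀ i, IsAlgebraic (k i) (algebraMap K (L i) u)) →
                ∃ c : ℂ, u = algebraMap ℂ K c := by
  obtain ⟨R₀, hR₀, hmain⟩ := exists_coef m r e n d hm he hn hd hd2
  refine ⟨R₀ * X ⟨0, by simp⟩, mul_ne_zero hR₀ (X_ne_zero _), ?_⟩
  intro f hfd hRf K _ _ x w hx hw hgen
  rw [map_mul, aeval_X] at hRf
  have hm0 : m ≠ 0 := by omega
  have hf : f ≠ 0 := by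
    rintro rfl
    simp at hRf
  have hxΩ : AlgebraicIndependent ℂ (fun j => algebraMap K (AlgebraicClosure K) (x j)) :=
    hx.map' (f := IsScalarTower.toAlgHom ℂ K (AlgebraicClosure K))
      (algebraMap K (AlgebraicClosure K)).injective
  obtain ⟨y, hy, hr, hdet⟩ := hmain f hfd (left_ne_zero_of_mul hRf) (AlgebraicClosure K) _ hxΩ
  obtain ⟨pd, hpd⟩ := exists_pd hm0 f x w hx hw hgen
  choose L fL aL aK tL fin k N p hp hu using fun i =>
    exists_family hm0 hgood f hf x w hx hw hgen pd hpd i (y i) (hy i) (hr i)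
  refine ⟨L, fL, aL, aK, tL, fin, k, N, p, hp, fun u halg => ?_⟩
  have hz : (fun j => algebraMap K (AlgebraicClosure K) (pd j u)) = 0 := by
    apply Matrix.eq_zero_of_mulVec_eq_zero hdet
    funext i
    exact hu i u (halg i)
  refine const_of_pd hm0 f x w hx hw hgen pd hpd u fun j => ?_
  exact (map_eq_zero (algebraMap K (AlgebraicClosure K))).1 (congrFun hz j)

end Pool.Agent.CV
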