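import Mathlib
import Pool.Agent.Lib_MP_1209e6_fl.Defs

/-! Auxiliary facts on models of curves of genus one: derivations and charts. -/

set_option autoImplicit false

open Pool.Agent.CampanaFlow

namespace Pool.Agent.CVM

variable {L : Type} [Field L] [Algebra ℂ L]

/-- derivations which agree on generators of the field agree -/
theorem der_eq_of_gen (E F : Derivation ℂ L L) (S : Set L)
    (hS : IntermediateField.adjoin ℂ S = ⊤) (h : ∀ a ∈ S, E a = F a) : E = F := by
  ext a
  have ha : a ∈ IntermediateField.adjoin ℂ S := by rw [hS]; trivial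
  induction ha using IntermediateField.adjoin_induction with
  | mem x hx => exact h x hx
  | algebraMap x => rw [Derivation.map_algebraMap, Derivation.map_algebraMap]
  | add x y _ _ hx hy => rw [map_add, map_add, hx, hy]
  | inv x _ hx => rw [Derivation.leibniz_inv, Derivation.leibniz_inv, hx]
  | mul x y _ _ hx hy => rw [Derivation.leibniz, Derivation.leibniz, hx, hy]

/-- the chart is preserved if the derivatives of its generators are in it -/
theorem globalField_of (k : IntermediateField ℂ L) {N : ℕ} (x : Fin (N + 1) → L)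
    (D : Derivation ℂ L L) (hD : ∀ a ∈ k, D a = 0) (h : ∀ i j, D (x i / x j) ∈ Chart k x j) :
    GlobalField k x D := by
  refine ⟨hD, fun j f hf => ?_⟩
  unfold Chart at hf
  induction hf using Algebra.adjoin_induction with
  | mem y hy =>
    rcases hy with hy | ⟨i, rfl⟩
    · rw [hD y hy]
      exact Subalgebra.zero_mem _
    · exact h i j
  | algebraMap r =>
    rw [Derivation.map_algebraMap]
    exact Subalgebra.zero_mem _
  | add y z _ _ hy hz =>
    rw [map_add]
    exact Subalgebra.add_mem _ hy hz
  | mul y z hy' hz' hy hz =>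
    rw [Derivation.leibniz, smul_eq_mul, smul_eq_mul]
    exact Subalgebra.add_mem _ (Subalgebra.mul_mem _ hy' hz) (Subalgebra.mul_mem _ hz' hy)

theorem mem_chart_of_mem (k : IntermediateField ℂ L) {N : ℕ} (x : Fin (N + 1) → L)
    (j : Fin (N + 1)) {a : L} (ha : a ∈ k) : a ∈ Chart k x j :=
  Algebra.subset_adjoin (Or.inl ha)

theorem div_mem_chart (k : IntermediateField ℂ L) {N : ℕ} (x : Fin (N + 1) → L)
    (i j : Fin (N + 1)) : x i / x j ∈ Chart k x j :=
  Algebra.subset_adjoin (Or.inr ⟨i, rfl⟩)

/-- the model is almost homogeneous if the field is generated by `k`, `t`, `w`, the field `D` is global,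
`D t ≠ 0`, and every derivation killing `k` and `t` kills `w` -/
theorem almost_of (k : IntermediateField ℂ L) {N : ℕ} (x : Fin (N + 1) → L)
    (hx : ∀ i, x i ≠ 0) (t w : L) (hgen : IntermediateField.adjoin ℂ ((k : Set L) ∪ {t, w}) = ⊤)
    (ht : t ∈ Set.range fun i => x i / x 0) (hw : w ∈ Set.range fun i => x i / x 0)
    (D : Derivation ℂ L L) (hD : GlobalField k x D) (hDt : D t ≠ 0)
    (hdw : ∀ E : Derivation ℂ L L, (∀ a ∈ k, E a = 0) → E t = 0 → E w = 0) :
    AlmostHomogeneous k x := by
  refine ⟨hx, ?_, ?_⟩
  · rw [eq_top_iff, ← hgen]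
    apply IntermediateField.adjoin.mono
    apply Set.union_subset_union_right
    rintro a (rfl | rfl)
    · exact ht
    · exact hw
  · intro E hE
    have h1 : E = (E t / D t) • D := by
      rw [← sub_eq_zero]
      have h2 : (E - (E t / D t) • D) t = 0 := by
        rw [Derivation.sub_apply, Derivation.smul_apply, smul_eq_mul]
        field_simp
        ring
      have h3 : ∀ a ∈ k, (E - (E t / D t) • D) a = 0 := by
        intro a ha
        rw [Derivation.sub_apply, Derivation.smul_apply, hE a ha, hD.1 a ha, smul_zero, sub_zero]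
      have h4 := hdw _ h3 h2
      refine der_eq_of_gen _ 0 _ hgen ?_
      rintro a (ha | rfl | rfl)
      · rw [h3 a ha]; rfl
      · rw [h2]; rfl
      · rw [h4]; rfl
    rw [h1]
    exact Submodule.smul_mem _ _ (Submodule.subset_span hD)

end Pool.Agent.CVM
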