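import Pool.Agent.Lib_MP_1209e6_fl.Defs

/-!
# Plane and space models of genus one: `w ^ m = q(t)`, `(m, deg q) = (3, 3), (4, 2)`

`MP_1209e6_ag`: cyclic covers of lines.
-/

set_option autoImplicit false

open Pool.Agent.CampanaFlow

namespace Pool.Agent.CM

variable {L : Type} [Field L] [Algebra ℂ L]

theorem mem_chart_const {k : IntermediateField ℂ L} {N : ℕ} (x : Fin (N + 1) → L) (j : Fin (N + 1))
    {a : L} (ha : a ∈ k) : a ∈ Chart k x j :=
  Algebra.subset_adjoin (Or.inl ha)

theorem mem_chart_gen (k : IntermediateField ℂ L) {N : ℕ} (x : Fin (N + 1) → L) (i j : Fin (N + 1)) :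
    x i / x j ∈ Chart k x j :=
  Algebra.subset_adjoin (Or.inr ⟨i, rfl⟩)

/-- it is enough to check the generators of the charts -/
theorem globalField_of {k : IntermediateField ℂ L} {N : ℕ} (x : Fin (N + 1) → L)
    (D : Derivation ℂ L L) (hD : ∀ a ∈ k, D a = 0)
    (h : ∀ i j, D (x i / x j) ∈ Chart k x j) : GlobalField k x D := by
  refine ⟨hD, fun j f hf => ?_⟩
  have hf' : f ∈ Algebra.adjoin ℂ ((k : Set L) ∪ Set.range fun i => x i / x j) := hf
  induction hf' using Algebra.adjoin_induction with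
  | mem y hy =>
    rcases hy with hy | ⟨i, rfl⟩
    · rw [hD y hy]; exact Subalgebra.zero_mem _
    · exact h i j
  | algebraMap r => rw [D.map_algebraMap]; exact Subalgebra.zero_mem _
  | add y z hy hz ihy ihz =>
    rw [map_add]; exact Subalgebra.add_mem _ (ihy hy) (ihz hz)
  | mul y z hy hz ihy ihz =>
    rw [Derivation.leibniz, smul_eq_mul, smul_eq_mul]
    exact Subalgebra.add_mem _ (Subalgebra.mul_mem _ hy (ihz hz)) (Subalgebra.mul_mem _ hz (ihy hy))

/-- two derivations of `L` which agree on field generators are equal -/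
theorem der_eq_of_gen {s : Set L} (hs : IntermediateField.adjoin ℂ s = ⊤) (D E : Derivation ℂ L L)
    (h : ∀ a ∈ s, D a = E a) : D = E := by
  apply Derivation.ext
  intro a
  have ha : a ∈ IntermediateField.adjoin ℂ s := by rw [hs]; trivial
  induction ha using IntermediateField.adjoin_induction with
  | mem x hx => exact h x hx
  | algebraMap r => rw [D.map_algebraMap, E.map_algebraMap]
  | add x y _ _ hx hy => rw [map_add, map_add, hx, hy]
  | inv x _ hx => rw [Derivation.leibniz_inv, Derivation.leibniz_inv, hx]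
  | mul x y _ _ hx hy =>
    rw [Derivation.leibniz, Derivation.leibniz, hx, hy]

/-- derivation of a polynomial value, coefficients killed -/
theorem der_eval {k : IntermediateField ℂ L} (q : Polynomial L) (hq : ∀ n, q.coeff n ∈ k)
    (E : Derivation ℂ L L) (hE : ∀ a ∈ k, E a = 0) (t : L) :
    E (q.eval t) = q.derivative.eval t * E t := by
  rw [Polynomial.eval_eq_sum, Polynomial.sum_def, map_sum, Polynomial.derivative_eval,
    Polynomial.sum_def, Finset.sum_mul]
  refine Finset.sum_congr rfl fun i _ => ?_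
  rw [Derivation.leibniz, hE _ (hq i), smul_zero, add_zero, Derivation.leibniz_pow, smul_eq_mul,
    smul_eq_mul, nsmul_eq_mul]
  ring

theorem der_w {k : IntermediateField ℂ L} {m : ℕ} (hm : m ≠ 0) (t w : L) (q : Polynomial L)
    (hqk : ∀ n, q.coeff n ∈ k) (hw : w ^ m = q.eval t) (hw0 : w ≠ 0) (E : Derivation ℂ L L)
    (hE : ∀ a ∈ k, E a = 0) :
    E w = q.derivative.eval t * E t / (m * w ^ (m - 1)) := by
  have h1 := congrArg E hw
  rw [der_eval q hqk E hE, Derivation.leibniz_pow, smul_eq_mul, nsmul_eq_mul] at h1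
  haveI : CharZero L := charZero_of_injective_algebraMap (algebraMap ℂ L).injective
  have hm' : (m : L) ≠ 0 := Nat.cast_ne_zero.2 hm
  rw [eq_div_iff (mul_ne_zero hm' (pow_ne_zero _ hw0)), ← h1]
  ring

/-- the span condition and generation -/
theorem almost_of {k : IntermediateField ℂ L} {m : ℕ} (hm : m ≠ 0) (t w : L) (q : Polynomial L)
    (hqk : ∀ n, q.coeff n ∈ k) (hw : w ^ m = q.eval t) (hw0 : w ≠ 0)
    (hgen : IntermediateField.adjoin ℂ ((k : Set L) ∪ {t, w}) = ⊤)
    (D : Derivation ℂ L L) (hD : ∀ a ∈ k, D a = 0) (hDt : D t ≠ 0) {N : ℕ} (x : Fin (N + 1) → L)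
    (hx : ∀ i, x i ≠ 0) (hxt : ∃ i, x i / x 0 = t) (hxw : ∃ i, x i / x 0 = w)
    (hG : GlobalField k x D) : AlmostHomogeneous k x := by
  refine ⟨hx, ?_, ?_⟩
  · refine top_le_iff.1 (hgen.ge.trans (IntermediateField.adjoin_le_iff.2 ?_))
    rintro a (ha | ha)
    · exact IntermediateField.subset_adjoin ℂ _ (Or.inl ha)
    · rcases ha with rfl | rfl
      · obtain ⟨i, hi⟩ := hxt
        exact IntermediateField.subset_adjoin ℂ _ (Or.inr ⟨i, hi⟩)
      · obtain ⟨i, hi⟩ := hxw
        exact IntermediateField.subset_adjoin ℂ _ (Or.inr ⟨i, hi⟩)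
  · intro E hE
    have h1 : E = (E t / D t) • D := by
      refine der_eq_of_gen hgen _ _ ?_
      rintro a (ha | ha)
      · rw [hE a ha, Derivation.smul_apply, hD a ha, smul_zero]
      · rcases ha with rfl | rfl
        · rw [Derivation.smul_apply, smul_eq_mul, div_mul_cancel₀ _ hDt]
        · rw [Derivation.smul_apply, smul_eq_mul, der_w hm t _ q hqk hw hw0 E hE,
            der_w hm t _ q hqk hw hw0 D hD]
          field_simp
    rw [h1]
    exact Submodule.smul_mem _ _ (Submodule.subset_span hG)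

end Pool.Agent.CM
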