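import Mathlib

/-!
# The nondegenerate point of the system of lines: the linear algebra (MP_1209e6_ag, line CY)

`G = (1 + T) ^ r`, `Q = 1 - m r T`, `phi = G ^ m Q`, `f0 = 1 + sum (phi (x_k) - 1) + sum x_j x_k ^ (2 + sigma k j)`.
-/

set_option autoImplicit false

open Polynomial

namespace Pool.Agent.CYPt

section core

variable {k : Type*} [Field k] [CharZero k]

/-- `1 - m r T` -/
noncomputable def Q0 (k : Type*) [CommRing k] (m r : ℕ) : k[X] := 1 - C ((m * r : ℕ) : k) * X

/-- `(1 + T) ^ r` -/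
noncomputable def G0 (k : Type*) [CommRing k] (r : ℕ) : k[X] := (1 + X) ^ r

theorem G0_natDegree_le (k : Type*) [CommRing k] (r : ℕ) : (G0 k r).natDegree ≤ r := by
  unfold G0
  refine natDegree_pow_le.trans ?_
  have h : (1 + X : k[X]).natDegree ≤ 1 := by
    refine (natDegree_add_le _ _).trans ?_
    simp [natDegree_X_le]
  calc r * (1 + X : k[X]).natDegree ≤ r * 1 := Nat.mul_le_mul_left _ h
    _ = r := mul_one r

theorem G0_coeff_zero (k : Type*) [CommRing k] (r : ℕ) : (G0 k r).coeff 0 = 1 := by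
  rw [G0, coeff_zero_eq_eval_zero]
  simp

theorem Q0_natDegree_le (k : Type*) [CommRing k] (m r : ℕ) : (Q0 k m r).natDegree ≤ 1 := by
  unfold Q0
  refine (natDegree_sub_le _ _).trans ?_
  simp only [natDegree_one]
  refine max_le (by omega) ?_
  exact (natDegree_C_mul_le _ _).trans natDegree_X_le

theorem coprime_G0_Q0 (m r : ℕ) (n : ℕ) (hm : 1 ≤ m) :
    IsCoprime ((1 + X : k[X]) ^ n) (C (m : k) * Q0 k m r) := by
  refine IsCoprime.pow_left ?_
  have hm' : (m : k) ≠ 0 := by
    have : m ≠ 0 := by omega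
    exact_mod_cast this
  have hc : (1 + (m * r : ℕ) : k) ≠ 0 := by
    have : (1 + m * r : ℕ) ≠ 0 := by omega
    exact_mod_cast this
  -- Q0 = (1 + m r) - m r (1 + X)
  have h1 : Q0 k m r = C (1 + (m * r : ℕ) : k) - C ((m * r : ℕ) : k) * (1 + X) := by
    unfold Q0
    rw [C_add, C_1]
    ring
  refine ⟨C ((1 + (m * r : ℕ) : k)⁻¹ * ((m * r : ℕ) : k)), C ((1 + (m * r : ℕ) : k)⁻¹ * (m : k)⁻¹), ?_⟩
  have h2 : (C ((1 + (m * r : ℕ) : k)⁻¹ * (m : k)⁻¹) * (C (m : k) * Q0 k m r) : k[X]) =
      C ((1 + (m * r : ℕ) : k)⁻¹) * Q0 k m r := by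
    rw [← mul_assoc, ← C_mul, mul_assoc _ _ (m : k), inv_mul_cancel₀ hm', mul_one]
  rw [h2, h1, mul_sub, C_mul]
  have h3 : (C ((1 + (m * r : ℕ) : k)⁻¹) * C (1 + (m * r : ℕ) : k) : k[X]) = 1 := by
    rw [← C_mul, inv_mul_cancel₀ hc, C_1]
  linear_combination h3

/-- the kernel of the linearised system at the point is zero -/
theorem core_inj {ι : Type*} [Fintype ι] (m r : ℕ) (hm : 1 ≤ m) (σ : ι → ℕ)
    (hσ : Function.Injective σ) (hσ2 : ∀ j, σ j < (m - 1) * r) (η : ι → k) (γ κ : k[X])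
    (hγ : γ.natDegree ≤ r) (hγ0 : γ.coeff 0 = 0)
    (h : X ^ 3 * ∑ j, C (η j) * X ^ (σ j) =
      G0 k r ^ (m - 1) * (C (m : k) * Q0 k m r * γ + G0 k r * κ)) :
    (∀ j, η j = 0) ∧ γ = 0 ∧ κ = 0 := by
  classical
  set H : k[X] := ∑ j, C (η j) * X ^ (σ j) with hH
  have hG : G0 k r ^ (m - 1) = (1 + X) ^ ((m - 1) * r) := by
    rw [G0, ← pow_mul, mul_comm]
  have hmon : (1 + X : k[X]).Monic := by
    have := monic_X_add_C (1 : k)
    rwa [C_1, add_comm] at this
  have hdeg : ((1 + X : k[X]) ^ ((m - 1) * r)).degree = (((m - 1) * r : ℕ) : WithBot ℕ) := by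
    have h1 : (1 + X : k[X]).degree = 1 := by
      have := degree_X_add_C (1 : k)
      rwa [C_1, add_comm] at this
    rw [degree_pow, h1]
    simp
  have hHdeg : H.degree < (((m - 1) * r : ℕ) : WithBot ℕ) := by
    rw [degree_lt_iff_coeff_zero]
    intro n hn
    rw [hH, finsetSum_coeff]
    refine Finset.sum_eq_zero fun j _ => ?_
    rw [coeff_C_mul, coeff_X_pow, if_neg, mul_zero]
    have := hσ2 j
    omega
  have hdvd : (1 + X : k[X]) ^ ((m - 1) * r) ∣ X ^ 3 * H := by
    rw [h, hG]; exact dvd_mul_right _ _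
  have hcop : IsCoprime ((1 + X : k[X]) ^ ((m - 1) * r)) (X ^ 3) := by
    refine IsCoprime.pow ?_
    exact ⟨1, -1, by ring⟩
  have hH0 : H = 0 := by
    by_contra hne
    have h1 : (1 + X : k[X]) ^ ((m - 1) * r) ∣ H := hcop.dvd_of_dvd_mul_left hdvd
    have h2 := degree_le_of_dvd h1 hne
    rw [hdeg] at h2
    exact absurd hHdeg (not_lt.2 h2)
  have hη : ∀ j, η j = 0 := by
    intro j
    have h1 : H.coeff (σ j) = η j := by
      rw [hH, finsetSum_coeff, Finset.sum_eq_single j]
      · rw [coeff_C_mul, coeff_X_pow, if_pos rfl, mul_one]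
      · intro l _ hl
        rw [coeff_C_mul, coeff_X_pow, if_neg, mul_zero]
        intro hh
        exact hl (hσ hh.symm)
      · intro hj; exact absurd (Finset.mem_univ j) hj
    rw [← h1, hH0, coeff_zero]
  refine ⟨hη, ?_⟩
  rw [hH0, mul_zero] at h
  have hGne : G0 k r ^ (m - 1) ≠ 0 := by
    rw [hG]; exact (hmon.pow _).ne_zero
  have h3 : C (m : k) * Q0 k m r * γ + G0 k r * κ = 0 := by
    rcases mul_eq_zero.1 h.symm with h4 | h4
    · exact absurd h4 hGne
    · exact h4
  have h5 : (1 + X : k[X]) ^ r ∣ γ := by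
    have h6 : (1 + X : k[X]) ^ r ∣ C (m : k) * Q0 k m r * γ := by
      refine ⟨-κ, ?_⟩
      have h7 : G0 k r = (1 + X) ^ r := rfl
      rw [← h7]
      linear_combination h3
    exact (coprime_G0_Q0 m r r hm).dvd_of_dvd_mul_left h6
  have hγz : γ = 0 := by
    obtain ⟨δ, hδ⟩ := h5
    by_contra hne
    have hδne : δ ≠ 0 := by rintro rfl; exact hne (by rw [hδ, mul_zero])
    have h8 : γ.natDegree = r + δ.natDegree := by
      rw [hδ, (hmon.pow r).natDegree_mul' hδne, hmon.natDegree_pow]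
      have h1 : (1 + X : k[X]).natDegree = 1 := by
        have := natDegree_X_add_C (1 : k)
        rwa [C_1, add_comm] at this
      rw [h1, mul_one]
    have h9 : δ.natDegree = 0 := by omega
    obtain ⟨c, hc⟩ := natDegree_eq_zero.1 h9
    have h10 : γ.coeff 0 = c := by
      rw [hδ, ← hc, coeff_zero_eq_eval_zero]
      simp
    rw [hγ0] at h10
    rw [← h10, C_0] at hc
    exact hδne hc.symm
  refine ⟨hγz, ?_⟩
  rw [hγz, mul_zero, zero_add] at h3
  have hG1 : G0 k r ≠ 0 := (hmon.pow r).ne_zero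
  rcases mul_eq_zero.1 h3 with h4 | h4
  · exact absurd h4 hG1
  · exact h4

end core

section phi

variable {k : Type*} [CommRing k]

/-- `phi = G ^ m Q` -/
noncomputable def phi0 (k : Type*) [CommRing k] (m r : ℕ) : k[X] := G0 k r ^ m * Q0 k m r

theorem phi0_coeff_zero (m r : ℕ) : (phi0 k m r).coeff 0 = 1 := by
  rw [coeff_zero_eq_eval_zero, phi0, G0, Q0]
  simp

theorem phi0_coeff_one (m r : ℕ) : (phi0 k m r).coeff 1 = 0 := by
  have h1 : (derivative (phi0 k m r)).eval 0 = 0 := by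
    rw [phi0, G0, Q0, ← pow_mul]
    simp only [derivative_mul, derivative_pow, derivative_add, derivative_one, derivative_X,
      derivative_sub, derivative_C, eval_add, eval_mul, eval_pow, eval_one, eval_X, eval_sub,
      eval_C, eval_natCast, derivative_natCast]
    push_cast
    simp
    ring
  have h2 : (derivative (phi0 k m r)).coeff 0 = (phi0 k m r).coeff 1 * (1 : k) := by
    rw [coeff_derivative]
    simp
  rw [← coeff_zero_eq_eval_zero, h2, mul_one] at h1
  exact h1

/-- `phi = 1 + X ^ 2 psi` -/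
theorem phi0_eq (m r : ℕ) : ∃ ψ : k[X], phi0 k m r = 1 + X ^ 2 * ψ := by
  have h : X ^ 2 ∣ phi0 k m r - 1 := by
    rw [X_pow_dvd_iff]
    intro d hd
    rw [coeff_sub]
    interval_cases d
    · rw [phi0_coeff_zero]; simp
    · rw [phi0_coeff_one]; simp [coeff_one]
  obtain ⟨ψ, hψ⟩ := h
  exact ⟨ψ, by rw [← hψ]; ring⟩

theorem phi0_aeval_sq {S : Type*} [CommRing S] [Algebra k S] (m r : ℕ) {a : S} (ha : a ^ 2 = 0) :
    aeval a (phi0 k m r) = 1 := by
  obtain ⟨ψ, hψ⟩ := phi0_eq (k := k) m r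
  rw [hψ, map_add, map_mul, map_pow, aeval_X, ha, zero_mul, add_zero, map_one]

theorem phi0_natDegree_le (m r : ℕ) : (phi0 k m r).natDegree ≤ m * r + 1 := by
  unfold phi0
  refine natDegree_mul_le.trans ?_
  have h1 : (G0 k r ^ m).natDegree ≤ m * r :=
    natDegree_pow_le.trans (Nat.mul_le_mul_left _ (G0_natDegree_le k r))
  exact Nat.add_le_add h1 (Q0_natDegree_le k m r)

end phi

section point

variable {k : Type*} [CommRing k] {ι : Type*} [Fintype ι] [DecidableEq ι]

/-- the polynomial `f0`; `σ i j` for `j ≠ i` -/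
noncomputable def f0 (k : Type*) [CommRing k] (ι : Type*) [Fintype ι] [DecidableEq ι] (m r : ℕ)
    (σ : ι → ι → ℕ) : MvPolynomial ι k :=
  1 + ∑ i, (aeval (MvPolynomial.X i) (phi0 k m r) - 1) +
    ∑ i, ∑ j ∈ Finset.univ.erase i, MvPolynomial.X j * MvPolynomial.X i ^ (2 + σ i j)

/-- `f0` on the first order neighbourhood of the `i`-th axis -/
theorem aeval_f0 {S : Type*} [CommRing S] [Algebra k S] (m r : ℕ) (σ : ι → ι → ℕ) (i : ι)
    (a : ι → S) (ha : ∀ j l, j ≠ i → l ≠ i → a j * a l = 0) :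
    MvPolynomial.aeval a (f0 k ι m r σ) =
      aeval (a i) (phi0 k m r) + ∑ j ∈ Finset.univ.erase i, a j * a i ^ (2 + σ i j) := by
  classical
  have hcomp : ∀ l, MvPolynomial.aeval a (aeval (MvPolynomial.X l : MvPolynomial ι k) (phi0 k m r)) =
      aeval (a l) (phi0 k m r) := by
    intro l
    have h1 := Polynomial.aeval_algHom_apply (MvPolynomial.aeval a : MvPolynomial ι k →ₐ[k] S)
      (MvPolynomial.X l) (phi0 k m r)
    rw [MvPolynomial.aeval_X] at h1
    exact h1.symm
  unfold f0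
  rw [map_add, map_add, map_one, map_sum, map_sum]
  have h2 : ∑ l, MvPolynomial.aeval a (aeval (MvPolynomial.X l : MvPolynomial ι k) (phi0 k m r) - 1) =
      aeval (a i) (phi0 k m r) - 1 := by
    rw [Finset.sum_eq_single i]
    · rw [map_sub, map_one, hcomp]
    · intro l _ hl
      rw [map_sub, map_one, hcomp, phi0_aeval_sq m r (by rw [pow_two]; exact ha l l hl hl), sub_self]
    · intro hi; exact absurd (Finset.mem_univ i) hi
  have h3 : ∑ l, MvPolynomial.aeval a (∑ j ∈ Finset.univ.erase l,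
      (MvPolynomial.X j * MvPolynomial.X l ^ (2 + σ l j) : MvPolynomial ι k)) =
      ∑ j ∈ Finset.univ.erase i, a j * a i ^ (2 + σ i j) := by
    rw [Finset.sum_eq_single i]
    · rw [map_sum]
      refine Finset.sum_congr rfl fun j _ => ?_
      rw [map_mul, map_pow, MvPolynomial.aeval_X, MvPolynomial.aeval_X]
    · intro l _ hl
      rw [map_sum]
      refine Finset.sum_eq_zero fun j _ => ?_
      rw [map_mul, map_pow, MvPolynomial.aeval_X, MvPolynomial.aeval_X]
      have : a l ^ (2 + σ l j) = 0 := by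
        rw [pow_add, pow_two, ha l l hl hl, zero_mul]
      rw [this, mul_zero]
    · intro hi; exact absurd (Finset.mem_univ i) hi
  rw [h2, h3]
  ring

theorem f0_totalDegree_le (m r d : ℕ) (σ : ι → ι → ℕ) (hd : m * r + 1 ≤ d)
    (hσ : ∀ i j, j ≠ i → 3 + σ i j ≤ d) : (f0 k ι m r σ).totalDegree ≤ d := by
  classical
  have hX : ∀ l : ι, (MvPolynomial.X l : MvPolynomial ι k).totalDegree ≤ 1 := by
    intro l
    rcases subsingleton_or_nontrivial k with hk | hk
    · have : (MvPolynomial.X l : MvPolynomial ι k) = 0 := Subsingleton.elim _ _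
      rw [this]; simp
    · rw [MvPolynomial.totalDegree_X]
  have hphi : ∀ l : ι, (aeval (MvPolynomial.X l : MvPolynomial ι k) (phi0 k m r)).totalDegree ≤ d := by
    intro l
    rw [aeval_eq_sum_range]
    refine MvPolynomial.totalDegree_finsetSum_le fun n hn => ?_
    refine (MvPolynomial.totalDegree_smul_le _ _).trans ?_
    refine (MvPolynomial.totalDegree_pow _ _).trans ?_
    have h1 : n ≤ m * r + 1 := by
      have := phi0_natDegree_le (k := k) m r
      have := Finset.mem_range.1 hn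
      omega
    calc n * (MvPolynomial.X l : MvPolynomial ι k).totalDegree ≤ n * 1 :=
          Nat.mul_le_mul_left _ (hX l)
      _ ≤ d := by omega
  unfold f0
  refine (MvPolynomial.totalDegree_add _ _).trans (max_le ?_ ?_)
  · refine (MvPolynomial.totalDegree_add _ _).trans (max_le ?_ ?_)
    · rw [MvPolynomial.totalDegree_one]; exact Nat.zero_le _
    · refine MvPolynomial.totalDegree_finsetSum_le fun l _ => ?_
      refine (MvPolynomial.totalDegree_sub _ _).trans (max_le (hphi l) ?_)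
      rw [MvPolynomial.totalDegree_one]; exact Nat.zero_le _
  · refine MvPolynomial.totalDegree_finsetSum_le fun l _ => ?_
    refine MvPolynomial.totalDegree_finsetSum_le fun j hj => ?_
    refine (MvPolynomial.totalDegree_mul _ _).trans ?_
    have h1 := hX j
    have h2 : ((MvPolynomial.X l : MvPolynomial ι k) ^ (2 + σ l j)).totalDegree ≤ 2 + σ l j := by
      refine (MvPolynomial.totalDegree_pow _ _).trans ?_
      calc (2 + σ l j) * (MvPolynomial.X l : MvPolynomial ι k).totalDegree ≤ (2 + σ l j) * 1 :=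
            Nat.mul_le_mul_left _ (hX l)
        _ = 2 + σ l j := mul_one _
    have h3 := hσ l j (Finset.ne_of_mem_erase hj)
    omega

end point

end Pool.Agent.CYPt
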