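import Mathlib
import Pool.Agent.Lib_MP_1209e6_cv.PtCore

/-!
# The nondegenerate point with dual numbers (MP_1209e6_ag, line CY)
-/

set_option autoImplicit false

open Polynomial

namespace Pool.Agent.CYPt

variable {k : Type*}

theorem add_eps_pow {R : Type*} [CommRing R] (a e b : R) (he : e * e = 0) (m : ℕ) :
    (a + e * b) ^ m = a ^ m + e * (m * a ^ (m - 1) * b) := by
  induction m with
  | zero => simp
  | succ n ih =>
    rw [pow_succ, ih]
    rcases Nat.eq_zero_or_pos n with hn | hn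
    · subst hn; simp
    · have h1 : a ^ n = a ^ (n - 1) * a := by
        rw [← pow_succ]; congr 1; omega
      have h2 : n + 1 - 1 = n := by omega
      rw [h2]
      push_cast
      have h3 : e * (↑n * a ^ (n - 1) * b) * (e * b) = 0 := by
        calc e * (↑n * a ^ (n - 1) * b) * (e * b) = (e * e) * (↑n * a ^ (n - 1) * b * b) := by ring
          _ = 0 := by rw [he, zero_mul]
      calc (a ^ n + e * (↑n * a ^ (n - 1) * b)) * (a + e * b)
          = a ^ n * a + e * (a ^ n * b) + e * (↑n * (a ^ (n - 1) * a) * b) +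
              e * (↑n * a ^ (n - 1) * b) * (e * b) := by ring
        _ = a ^ (n + 1) + e * ((↑n + 1) * a ^ n * b) := by rw [h3, ← h1, pow_succ]; ring

/-- the inclusion of `k[X]` in `k[ε][X]` -/
noncomputable def inc (k : Type*) [CommRing k] : k[X] →+* (DualNumber k)[X] :=
  Polynomial.mapRingHom (algebraMap k (DualNumber k))

/-- `ε` as a constant polynomial -/
noncomputable def ep (k : Type*) [CommRing k] : (DualNumber k)[X] := C DualNumber.eps

theorem ep_mul_ep (k : Type*) [CommRing k] : ep k * ep k = 0 := by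
  rw [ep, ← C_mul, DualNumber.eps_mul_eps, C_0]

theorem ep_inc_inj [CommRing k] {A B A' B' : k[X]}
    (h : inc k A + ep k * inc k A' = inc k B + ep k * inc k B') : A = B ∧ A' = B' := by
  have key : ∀ (P P' : k[X]) (n : ℕ), (inc k P + ep k * inc k P').coeff n =
      TrivSqZeroExt.inl (P.coeff n) + TrivSqZeroExt.inr (P'.coeff n) := by
    intro P P' n
    rw [coeff_add, ep, coeff_C_mul, inc, coe_mapRingHom, coeff_map, coeff_map]
    rw [TrivSqZeroExt.algebraMap_eq_inl]
    refine TrivSqZeroExt.ext ?_ ?_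
    · simp
    · simp
  constructor
  · ext n
    have h1 := congrArg (fun P => TrivSqZeroExt.fst (P.coeff n)) h
    simp only [key] at h1
    simpa using h1
  · ext n
    have h1 := congrArg (fun P => TrivSqZeroExt.snd (P.coeff n)) h
    simp only [key] at h1
    simpa using h1

/-- `G ^ m Q` for a first order deformation -/
theorem pow_mul_dual [CommRing k] (m : ℕ) (G Q γ κ : k[X]) :
    (inc k G + ep k * inc k γ) ^ m * (inc k Q + ep k * inc k κ) =
      inc k (G ^ m * Q) + ep k * inc k (m * G ^ (m - 1) * Q * γ + G ^ m * κ) := by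
  have h00 := add_eps_pow (inc k G) (ep k) (inc k γ) (ep_mul_ep k) m
  rw [h00]
  have h0 := ep_mul_ep k
  simp only [map_add, map_mul, map_pow, map_natCast]
  linear_combination (inc k κ * (↑m * inc k G ^ (m - 1) * inc k γ)) * h0

variable {ι : Type*} [Fintype ι] [DecidableEq ι]

/-- `f0` on the deformed axis: `a i = X`, `a j = ε η_j X` -/
theorem aeval_f0_dual [CommRing k] (m r : ℕ) (σ : ι → ι → ℕ) (i : ι) (η : ι → k)
    (a : ι → (DualNumber k)[X]) (hai : a i = X) (haj : ∀ j, j ≠ i → a j = ep k * inc k (C (η j) * X)) :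
    MvPolynomial.aeval a (f0 k ι m r σ) =
      inc k (phi0 k m r) + ep k * inc k (X ^ 3 * ∑ j ∈ Finset.univ.erase i, C (η j) * X ^ (σ i j)) := by
  rw [aeval_f0 m r σ i a (by
    intro j l hj hl
    rw [haj j hj, haj l hl]
    linear_combination (inc k (C (η j) * X) * inc k (C (η l) * X)) * ep_mul_ep k)]
  rw [hai]
  have hphi : aeval (X : (DualNumber k)[X]) (phi0 k m r) = inc k (phi0 k m r) := by
    rw [inc, coe_mapRingHom, Polynomial.aeval_X_left_eq_map]
  rw [hphi]
  congr 1
  · rw [Finset.mul_sum, map_sum, Finset.mul_sum]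
    refine Finset.sum_congr rfl fun j hj => ?_
    rw [haj j (Finset.ne_of_mem_erase hj)]
    have hX : inc k X = X := by rw [inc, coe_mapRingHom, map_X]
    simp only [map_mul, map_pow, hX]
    ring

/-- the final form: a first order solution at the point is trivial -/
theorem dual_inj [Field k] [CharZero k] (m r : ℕ) (hm : 1 ≤ m) (σ : ι → ι → ℕ) (i : ι)
    (hσ : ∀ j l, j ≠ i → l ≠ i → σ i j = σ i l → j = l) (hσ2 : ∀ j, j ≠ i → σ i j < (m - 1) * r)
    (η : ι → k) (hηi : η i = 0) (γ κ : k[X]) (hγ : γ.natDegree ≤ r) (hγ0 : γ.coeff 0 = 0)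
    (h : X ^ 3 * ∑ j ∈ Finset.univ.erase i, C (η j) * X ^ (σ i j) =
      (m : k[X]) * G0 k r ^ (m - 1) * Q0 k m r * γ + G0 k r ^ m * κ) :
    (∀ j, η j = 0) ∧ γ = 0 ∧ κ = 0 := by
  classical
  have h1 : ∑ j ∈ Finset.univ.erase i, C (η j) * X ^ (σ i j) =
      ∑ j : {j : ι // j ≠ i}, C (η j.1) * (X : k[X]) ^ (σ i j.1) := by
    rw [Finset.sum_subtype (Finset.univ.erase i) (p := fun j => j ≠ i) (by intro x; simp)
      (fun j => C (η j) * X ^ (σ i j))]
  have h2 : (m : k[X]) * G0 k r ^ (m - 1) * Q0 k m r * γ + G0 k r ^ m * κ =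
      G0 k r ^ (m - 1) * (C (m : k) * Q0 k m r * γ + G0 k r * κ) := by
    have h3 : G0 k r ^ m = G0 k r ^ (m - 1) * G0 k r := by
      rw [← pow_succ]; congr 1; omega
    rw [h3, map_natCast]
    ring
  rw [h1, h2] at h
  obtain ⟨ha, hb, hc⟩ := core_inj m r hm (fun j : {j : ι // j ≠ i} => σ i j.1)
    (by
      intro j l hjl
      exact Subtype.ext (hσ j.1 l.1 j.2 l.2 hjl))
    (fun j => hσ2 j.1 j.2) (fun j => η j.1) γ κ hγ hγ0 h
  refine ⟨fun j => ?_, hb, hc⟩
  by_cases hj : j = i
  · rw [hj, hηi]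
  · exact ha ⟨j, hj⟩

end Pool.Agent.CYPt
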