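import Pool.Agent.Lib_MP_1209e6_cv.Defs
import Pool.Agent.Lib_MP_1209e6_cv.PtDual

/-! PIECE POINT: one nondegenerate solution of all `n` systems with `v^(i) = e_i`. -/

set_option autoImplicit false

open MvPolynomial TrivSqZeroExt

namespace Pool.Agent.CV

open Pool.Agent.CYPt

/-- the exponents: for every `i` a bijection from `{j ≠ i}` to `{0, …, n - 2}` -/
def sg {n : ℕ} (i j : Fin n) : ℕ := if j < i then j.1 else j.1 - 1

theorem sg_inj {n : ℕ} (i j l : Fin n) (hj : j ≠ i) (hl : l ≠ i) (h : sg i j = sg i l) : j = l := by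
  unfold sg at h
  have hj' : j.1 ≠ i.1 := fun h => hj (Fin.ext h)
  have hl' : l.1 ≠ i.1 := fun h => hl (Fin.ext h)
  simp only [Fin.lt_def] at h
  apply Fin.ext
  split_ifs at h <;> omega

theorem sg_lt {n : ℕ} (i j : Fin n) (hj : j ≠ i) : sg i j < n - 1 := by
  unfold sg
  have hj' : j.1 ≠ i.1 := fun h => hj (Fin.ext h)
  have h1 := i.2
  have h2 := j.2
  simp only [Fin.lt_def]
  split_ifs <;> omega

/-- the coefficients of a polynomial of degree at most `d` -/
noncomputable def cf {S : Type*} [CommRing S] {n d : ℕ} (f : MvPolynomial (Fin n) S) : Mon n d → S :=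
  fun s => f.coeff s.1

theorem poly_cf {S : Type*} [CommRing S] {n d : ℕ} (f : MvPolynomial (Fin n) S)
    (hf : f.totalDegree ≤ d) : poly (cf f : Mon n d → S) = f := by
  classical
  ext t
  unfold poly cf
  rw [MvPolynomial.coeff_sum]
  by_cases ht : t.degree ≤ d
  · rw [Finset.sum_eq_single (⟨t, ht⟩ : Mon n d)]
    · rw [MvPolynomial.coeff_monomial, if_pos rfl]
    · intro s _ hs
      rw [MvPolynomial.coeff_monomial, if_neg]
      intro h
      exact hs (Subtype.ext h)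
    · intro h; exact absurd (Finset.mem_univ _) h
  · rw [Finset.sum_eq_zero]
    · symm
      by_contra hne
      have h1 : t ∈ f.support := MvPolynomial.mem_support_iff.2 hne
      have h2 := MvPolynomial.le_totalDegree h1
      have h3 : t.degree ≤ f.totalDegree := h2
      exact ht (h3.trans hf)
    · intro s _
      rw [MvPolynomial.coeff_monomial, if_neg]
      rintro rfl
      exact ht s.2

/-- the solution -/
noncomputable def ySol (n m r e : ℕ) (i : Fin n) : Unk n r e → ℂ :=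
  Sum.elim (Pi.single i 1)
    (Sum.elim (fun k => (G0 ℂ r).coeff (k.1 + 1)) (fun k => (Q0 ℂ m r).coeff k.1))

theorem vOf_ySol (n m r e : ℕ) (i : Fin n) : vOf (ySol n m r e i) = Pi.single i 1 := rfl

theorem GOf_ySol (n m r e : ℕ) (i : Fin n) : GOf (ySol n m r e i) = G0 ℂ r := by
  unfold GOf ySol
  simp only [Sum.elim_inr, Sum.elim_inl]
  have h1 : ∑ k : Fin r, Polynomial.C ((G0 ℂ r).coeff (k.1 + 1)) * (Polynomial.X : Polynomial ℂ) ^ (k.1 + 1) =
      ∑ k ∈ Finset.range r, Polynomial.C ((G0 ℂ r).coeff (k + 1)) * Polynomial.X ^ (k + 1) :=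
    Fin.sum_univ_eq_sum_range
      (fun k => Polynomial.C ((G0 ℂ r).coeff (k + 1)) * (Polynomial.X : Polynomial ℂ) ^ (k + 1)) r
  rw [h1]
  have h2 := Polynomial.as_sum_range_C_mul_X_pow' (p := G0 ℂ r)
    (Nat.lt_succ_of_le (G0_natDegree_le ℂ r))
  conv_rhs => rw [h2, Finset.sum_range_succ', G0_coeff_zero]
  simp
  ring

theorem QOf_ySol (n m r e : ℕ) (he : 1 ≤ e) (i : Fin n) : QOf (ySol n m r e i) = Q0 ℂ m r := by
  unfold QOf ySol
  simp only [Sum.elim_inr]
  have h1 : ∑ k : Fin (e + 1), Polynomial.C ((Q0 ℂ m r).coeff k.1) * (Polynomial.X : Polynomial ℂ) ^ k.1 =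
      ∑ k ∈ Finset.range (e + 1), Polynomial.C ((Q0 ℂ m r).coeff k) * Polynomial.X ^ k :=
    Fin.sum_univ_eq_sum_range
      (fun k => Polynomial.C ((Q0 ℂ m r).coeff k) * (Polynomial.X : Polynomial ℂ) ^ k) (e + 1)
  rw [h1]
  exact (Polynomial.as_sum_range_C_mul_X_pow' (p := Q0 ℂ m r)
    (Nat.lt_succ_of_le ((Q0_natDegree_le ℂ m r).trans he))).symm

/-- the `G` part of a tangent vector -/
noncomputable def gam {n r e : ℕ} (z : Unk n r e → ℂ) : Polynomial ℂ :=
  ∑ k : Fin r, Polynomial.C (z (Sum.inr (Sum.inl k))) * Polynomial.X ^ (k.1 + 1)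

/-- the `Q` part of a tangent vector -/
noncomputable def kap {n r e : ℕ} (z : Unk n r e → ℂ) : Polynomial ℂ :=
  ∑ k : Fin (e + 1), Polynomial.C (z (Sum.inr (Sum.inr k))) * Polynomial.X ^ k.1

theorem inc_C (a : ℂ) : inc ℂ (Polynomial.C a) = Polynomial.C (inl a) := by
  rw [inc, Polynomial.coe_mapRingHom, Polynomial.map_C, TrivSqZeroExt.algebraMap_eq_inl]

theorem inc_X : inc ℂ Polynomial.X = Polynomial.X := by
  rw [inc, Polynomial.coe_mapRingHom, Polynomial.map_X]

theorem ep_mul_inc_C (b : ℂ) : ep ℂ * inc ℂ (Polynomial.C b) = Polynomial.C (inr b) := by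
  rw [inc_C, ep, ← Polynomial.C_mul]
  congr 1
  refine TrivSqZeroExt.ext ?_ ?_
  · simp
  · simp

theorem C_dual {κ : Type*} (y z : κ → ℂ) (k : κ) :
    Polynomial.C (dual y z k) = inc ℂ (Polynomial.C (y k)) + ep ℂ * inc ℂ (Polynomial.C (z k)) := by
  rw [ep_mul_inc_C, inc_C, dual, Polynomial.C_add]

theorem GOf_dual {n r e : ℕ} (y z : Unk n r e → ℂ) :
    GOf (dual y z) = inc ℂ (GOf y) + ep ℂ * inc ℂ (gam z) := by
  unfold GOf gam
  rw [map_add, map_one, map_sum, map_sum, Finset.mul_sum, add_assoc, ← Finset.sum_add_distrib]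
  congr 1
  refine Finset.sum_congr rfl fun k _ => ?_
  rw [C_dual, map_mul, map_mul, map_pow, inc_X]
  ring

theorem QOf_dual {n r e : ℕ} (y z : Unk n r e → ℂ) :
    QOf (dual y z) = inc ℂ (QOf y) + ep ℂ * inc ℂ (kap z) := by
  unfold QOf kap
  rw [map_sum, map_sum, Finset.mul_sum, ← Finset.sum_add_distrib]
  refine Finset.sum_congr rfl fun k _ => ?_
  rw [C_dual, map_mul, map_mul, map_pow, inc_X]
  ring

theorem gam_coeff {n r e : ℕ} (z : Unk n r e → ℂ) (k : Fin r) :
    (gam z).coeff (k.1 + 1) = z (Sum.inr (Sum.inl k)) := by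
  unfold gam
  rw [Polynomial.finsetSum_coeff, Finset.sum_eq_single k]
  · rw [Polynomial.coeff_C_mul, Polynomial.coeff_X_pow, if_pos rfl, mul_one]
  · intro l _ hl
    rw [Polynomial.coeff_C_mul, Polynomial.coeff_X_pow, if_neg, mul_zero]
    intro h
    apply hl
    apply Fin.ext
    omega
  · intro h; exact absurd (Finset.mem_univ _) h

theorem kap_coeff {n r e : ℕ} (z : Unk n r e → ℂ) (k : Fin (e + 1)) :
    (kap z).coeff k.1 = z (Sum.inr (Sum.inr k)) := by
  unfold kap
  rw [Polynomial.finsetSum_coeff, Finset.sum_eq_single k]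
  · rw [Polynomial.coeff_C_mul, Polynomial.coeff_X_pow, if_pos rfl, mul_one]
  · intro l _ hl
    rw [Polynomial.coeff_C_mul, Polynomial.coeff_X_pow, if_neg, mul_zero]
    intro h
    exact hl (Fin.ext h.symm)
  · intro h; exact absurd (Finset.mem_univ _) h

theorem gam_coeff_zero {n r e : ℕ} (z : Unk n r e → ℂ) : (gam z).coeff 0 = 0 := by
  unfold gam
  rw [Polynomial.finsetSum_coeff]
  refine Finset.sum_eq_zero fun l _ => ?_
  rw [Polynomial.coeff_C_mul, Polynomial.coeff_X_pow, if_neg (by omega), mul_zero]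

theorem gam_natDegree {n r e : ℕ} (z : Unk n r e → ℂ) : (gam z).natDegree ≤ r := by
  unfold gam
  refine Polynomial.natDegree_sum_le_of_forall_le _ _ fun k _ => ?_
  refine (Polynomial.natDegree_C_mul_X_pow_le _ _).trans ?_
  have := k.2
  omega

/-- Proof. `G₀ = (1 + X) ^ r`, `Q₀ = 1 - m r X`, `φ = G₀ ^ m * Q₀`, `φ(0) = 1`, `φ'(0) = 0`,
`f₀ = 1 + ∑_k (φ(x_k) - 1) + ∑_(j ≠ k) x_j x_k ^ (2 + σ k j)`, `σ k ·` a bijection from `{j ≠ k}` to
`{0, …, n - 2}`, of degree `≤ m r + 1 ≤ d` resp. `≤ n + 1 ≤ d`; `x = 0`, `y i = (e_i, G₀, Q₀)`.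
`f₀ (X e_i) = φ(X)`. Tangent vector `z = (η, γ, κ)`: `η_i = 0`; over the dual numbers
`f₀ (X (e_i + ε η)) = φ + ε ∑_(j ≠ i) η_j X ^ (3 + σ i j)` (`x_j = ε X η_j` has square zero, `φ'(0) = 0`), and
`(G₀ + ε γ) ^ m (Q₀ + ε κ) = φ + ε G₀ ^ (m - 1) (m Q₀ γ + G₀ κ)`. So
`X ^ 3 H = (1 + X) ^ (n - 1) (m Q₀ γ + G₀ κ)` with `deg H ≤ n - 2`, so `H = 0`, `η = 0`; then
`G₀ ∣ m Q₀ γ`, `G₀ ∣ γ` (`Q₀ (-1) ≠ 0`), `deg γ ≤ r`, `γ(0) = 0`, `G₀(0) = 1`, so `γ = 0` and `κ = 0`. -/
theorem exists_point (m r e n d : ℕ) (hm : 2 ≤ m) (he : 1 ≤ e) (hn : n = (m - 1) * r + 1)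
    (hd : d = m * r + e) (hd2 : n + 1 ≤ d) :
    ∃ (c : Mon n d → ℂ) (y : Fin n → Unk n r e → ℂ),
      (∀ i, IsSol m (poly c) (fun _ => 0) i (y i)) ∧ (∀ i, Rigid m (poly c) (fun _ => 0) i (y i)) ∧
        (Matrix.of fun i => vOf (y i)).det ≠ 0 := by
  classical
  set f : MvPolynomial (Fin n) ℂ := f0 ℂ (Fin n) m r sg with hf
  have hdeg : f.totalDegree ≤ d := by
    refine f0_totalDegree_le m r d sg (by omega) fun i j hj => ?_
    have := sg_lt i j hj
    omega
  have hpoly : poly (cf f : Mon n d → ℂ) = f := poly_cf f hdeg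
  refine ⟨cf f, ySol n m r e, fun i => ?_, fun i => ?_, ?_⟩
  · -- the solution
    refine ⟨by rw [vOf_ySol, Pi.single_eq_same], ?_⟩
    rw [hpoly, GOf_ySol, QOf_ySol n m r e he, vOf_ySol]
    unfold res
    have hl : ∀ j, line (fun _ => (0 : ℂ)) (Pi.single i 1) i j =
        if j = i then Polynomial.X else 0 := by
      intro j
      unfold line
      by_cases hj : j = i
      · subst hj; simp
      · rw [Pi.single_eq_of_ne hj, if_neg hj]; simp
    rw [hf, aeval_f0 m r sg i _ (by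
      intro j l hj _
      rw [hl j, if_neg hj, zero_mul])]
    rw [hl i, if_pos rfl, Polynomial.aeval_X_left, AlgHom.id_apply, Finset.sum_eq_zero, add_zero]
    · rfl
    · intro j hj
      rw [hl j, if_neg (Finset.ne_of_mem_erase hj), zero_mul]
  · -- rigidity
    intro z hz
    obtain ⟨hv, hz⟩ := hz
    rw [hpoly] at hz
    have hηi : z (Sum.inl i) = 0 := by
      have h1 : dual (ySol n m r e i) z (Sum.inl i) = 1 := hv
      have h2 := congrArg TrivSqZeroExt.snd h1
      unfold dual at h2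
      simpa using h2
    rw [GOf_dual, QOf_dual, GOf_ySol, QOf_ySol n m r e he, pow_mul_dual] at hz
    unfold res at hz
    have hmap : (map (inlHom ℂ ℂ) f : MvPolynomial (Fin n) (DualNumber ℂ)) =
        map (algebraMap ℂ (DualNumber ℂ)) f := by
      rfl
    rw [hmap, aeval_map_algebraMap] at hz
    have hli : line (fun _ : Fin n => (inl (0 : ℂ) : DualNumber ℂ)) (vOf (dual (ySol n m r e i) z)) i i =
        Polynomial.X := by
      unfold line
      rw [hv, mul_one, sub_self, Polynomial.C_0, zero_add, Polynomial.C_1, mul_one]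
    have hlj : ∀ j, j ≠ i → line (fun _ : Fin n => (inl (0 : ℂ) : DualNumber ℂ))
        (vOf (dual (ySol n m r e i) z)) i j =
        ep ℂ * inc ℂ (Polynomial.C (z (Sum.inl j)) * Polynomial.X) := by
      intro j hj
      have h1 : vOf (dual (ySol n m r e i) z) j = inr (z (Sum.inl j)) := by
        unfold vOf dual ySol
        rw [Sum.elim_inl, Pi.single_eq_of_ne hj, inl_zero, zero_add]
      unfold line
      rw [h1, map_mul, ← mul_assoc, ep_mul_inc_C, inc_X, TrivSqZeroExt.inl_zero, zero_mul, sub_zero,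
        Polynomial.C_0, zero_add, mul_comm]
    rw [hf, aeval_f0_dual m r sg i (fun j => z (Sum.inl j)) _ hli hlj] at hz
    have h2 := (ep_inc_inj hz).2
    obtain ⟨h3, h4, h5⟩ := dual_inj m r (by omega) sg i (fun j l hj hl h => sg_inj i j l hj hl h)
      (fun j hj => by have := sg_lt i j hj; omega) (fun j => z (Sum.inl j)) hηi (gam z) (kap z)
      (gam_natDegree z) (gam_coeff_zero z) h2
    funext k
    rcases k with j | j | j
    · exact h3 j
    · rw [← gam_coeff z j, h4, Polynomial.coeff_zero]; rfl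
    · rw [← kap_coeff z j, h5, Polynomial.coeff_zero]; rfl
  · have h1 : (Matrix.of fun i => vOf (ySol n m r e i)) = (1 : Matrix (Fin n) (Fin n) ℂ) := by
      ext i j
      rw [Matrix.of_apply, vOf_ySol, Matrix.one_apply, Pi.single_apply]
      by_cases h : i = j
      · subst h; simp
      · rw [if_neg h, if_neg (fun h' => h h'.symm)]
    rw [h1, Matrix.det_one]
    exact one_ne_zero

end Pool.Agent.CV
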