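import Mathlib

/-!
# Injectivity of an étale extension of a polynomial ring that has a point

Square system `F i (a, Y) = 0` over `K[a]`, `K` a field of characteristic zero.
If `(F, D)` has a point with `F = 0`, `D ≠ 0`, and the Jacobian determinant divides `D`, then
no nonzero polynomial `h(a)` has a multiple `D ^ N * h` in the ideal of the `F i`.
-/

namespace Pool.Agent.CV

open MvPolynomial

section Sat

variable {K : Type*} [Field K] {σ τ : Type*} [Fintype τ] [DecidableEq τ]

/-- The Jacobian matrix in the second group of variables. -/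
noncomputable def satJac (F : τ → MvPolynomial (σ ⊕ τ) K) :
    Matrix τ τ (MvPolynomial (σ ⊕ τ) K) :=
  Matrix.of fun i j => pderiv (Sum.inr j) (F i)

/-- The lift of `det J * ∂/∂a_s` which kills the equations. -/
noncomputable def satD (F : τ → MvPolynomial (σ ⊕ τ) K) (s : σ) :
    Derivation K (MvPolynomial (σ ⊕ τ) K) (MvPolynomial (σ ⊕ τ) K) :=
  (satJac F).det • (pderiv (Sum.inl s)) -
    ∑ j, ((satJac F).adjugate.mulVec (fun i => pderiv (Sum.inl s) (F i))) j •
      (pderiv (Sum.inr j) : Derivation K (MvPolynomial (σ ⊕ τ) K) (MvPolynomial (σ ⊕ τ) K))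

theorem satD_apply (F : τ → MvPolynomial (σ ⊕ τ) K) (s : σ) (g : MvPolynomial (σ ⊕ τ) K) :
    satD F s g = (satJac F).det * pderiv (Sum.inl s) g -
      ∑ j, ((satJac F).adjugate.mulVec (fun i => pderiv (Sum.inl s) (F i))) j *
        pderiv (Sum.inr j) g := by
  have h : ∀ (S : Finset τ) (c : τ → MvPolynomial (σ ⊕ τ) K)
      (E : τ → Derivation K (MvPolynomial (σ ⊕ τ) K) (MvPolynomial (σ ⊕ τ) K)),
      (∑ j ∈ S, c j • E j) g = ∑ j ∈ S, c j * E j g := by
    intro S c E
    classical
    induction S using Finset.induction_on with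
    | empty => simp
    | insert a S ha ih => rw [Finset.sum_insert ha, Finset.sum_insert ha, Derivation.add_apply, ih,
        Derivation.smul_apply, smul_eq_mul]
  rw [satD, Derivation.sub_apply, Derivation.smul_apply, smul_eq_mul, h]

theorem satD_eq (F : τ → MvPolynomial (σ ⊕ τ) K) (s : σ) (i : τ) : satD F s (F i) = 0 := by
  rw [satD_apply]
  have h : ∑ j, ((satJac F).adjugate.mulVec (fun i => pderiv (Sum.inl s) (F i))) j *
      pderiv (Sum.inr j) (F i) =
      ((satJac F).mulVec ((satJac F).adjugate.mulVec (fun i => pderiv (Sum.inl s) (F i)))) i := by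
    simp [Matrix.mulVec, dotProduct, satJac, mul_comm]
  rw [h, Matrix.mulVec_mulVec, Matrix.mul_adjugate, Matrix.smul_mulVec, Matrix.one_mulVec]
  simp

theorem satD_span (F : τ → MvPolynomial (σ ⊕ τ) K) (s : σ) (g : MvPolynomial (σ ⊕ τ) K)
    (hg : g ∈ Ideal.span (Set.range F)) : satD F s g ∈ Ideal.span (Set.range F) := by
  induction hg using Submodule.span_induction with
  | mem x hx =>
    obtain ⟨i, rfl⟩ := hx
    rw [satD_eq]; exact Submodule.zero_mem _
  | zero => simp
  | add x y _ _ hx hy => rw [map_add]; exact Submodule.add_mem _ hx hy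
  | smul a x hx ih =>
    rw [smul_eq_mul, Derivation.leibniz, smul_eq_mul, smul_eq_mul]
    exact Submodule.add_mem _ (Ideal.mul_mem_left _ _ ih) (Ideal.mul_mem_right _ _ hx)

theorem satD_rename (F : τ → MvPolynomial (σ ⊕ τ) K) (s : σ) (h : MvPolynomial σ K) :
    satD F s (rename Sum.inl h) = (satJac F).det * rename Sum.inl (pderiv s h) := by
  rw [satD_apply, pderiv_rename Sum.inl_injective]
  have : ∀ j : τ, pderiv (Sum.inr j) (rename (Sum.inl : σ → σ ⊕ τ) h) = 0 := by
    intro j
    apply pderiv_eq_zero_of_notMem_vars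
    intro hj
    classical
    have := vars_rename (Sum.inl : σ → σ ⊕ τ) h hj
    simp at this
  simp [this]

/-- All partial derivatives zero: constant. -/
theorem sat_const [CharZero K] (h : MvPolynomial σ K) (hd : ∀ s, pderiv s h = 0) :
    h = C (coeff 0 h) := by
  classical
  ext m
  rw [coeff_C]
  split_ifs with hm
  · rw [← hm]
  · have : m ≠ 0 := fun h => hm h.symm
    obtain ⟨s, hs⟩ := Finsupp.ne_iff.1 this
    have hs' : m s ≠ 0 := by simpa using hs
    have h1 := coeff_pderiv (i := s) h (m - Finsupp.single s 1)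
    rw [hd s, coeff_zero] at h1
    have h2 : m - Finsupp.single s 1 + Finsupp.single s 1 = m := by
      apply tsub_add_cancel_of_le
      rw [Finsupp.single_le_iff]; omega
    rw [h2] at h1
    have h3 := h1.symm
    rcases mul_eq_zero.1 h3 with h4 | h4
    · exact h4
    · exfalso
      have h5 : (((m - Finsupp.single s 1 : σ →₀ ℕ) s + 1 : ℕ) : K) ≠ 0 :=
        Nat.cast_ne_zero.2 (Nat.succ_ne_zero _)
      exact h5 (by rw [Nat.cast_add, Nat.cast_one]; exact h4)

theorem sat_totalDegree (h : MvPolynomial σ K) (s : σ) (n : ℕ) (hn : h.totalDegree ≤ n + 1) :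
    (pderiv s h).totalDegree ≤ n := by
  classical
  rw [totalDegree]
  refine Finset.sup_le fun m hm => ?_
  rw [mem_support_iff, coeff_pderiv] at hm
  have h1 : coeff (m + Finsupp.single s 1) h ≠ 0 := left_ne_zero_of_mul hm
  have h2 := le_totalDegree (mem_support_iff.2 h1)
  have h3 : ((m + Finsupp.single s 1).sum fun _ e => e) = (m.sum fun _ e => e) + 1 := by
    rw [Finsupp.sum_add_index' (fun _ => rfl) (fun _ _ _ => rfl)]
    simp
  omega

/-- The saturated ideal is stable under `satD`, in the form needed. -/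
theorem satD_sat (F : τ → MvPolynomial (σ ⊕ τ) K) (D g : MvPolynomial (σ ⊕ τ) K) (N : ℕ)
    (hg : D ^ N * g ∈ Ideal.span (Set.range F)) (s : σ) :
    D ^ (N + 1) * satD F s g ∈ Ideal.span (Set.range F) := by
  have h1 := satD_span F s _ hg
  rw [Derivation.leibniz, Derivation.leibniz_pow, smul_eq_mul, smul_eq_mul] at h1
  have h2 := Ideal.mul_mem_left _ D h1
  have h3 : D * (D ^ N * satD F s g + g * (N • D ^ (N - 1) • satD F s D)) =
      D ^ (N + 1) * satD F s g + (N : MvPolynomial (σ ⊕ τ) K) * satD F s D * (D ^ N * g) := by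
    rcases Nat.eq_zero_or_pos N with rfl | hN
    · simp
    · obtain ⟨k, rfl⟩ : ∃ k, N = k + 1 := ⟨N - 1, by omega⟩
      simp only [nsmul_eq_mul, smul_eq_mul, Nat.add_sub_cancel]
      ring
  rw [h3] at h2
  exact (Ideal.add_mem_iff_left _ (Ideal.mul_mem_left _ _ hg)).1 h2

theorem sat_inj [CharZero K] {L : Type*} [Field L] [Algebra K L]
    (F : τ → MvPolynomial (σ ⊕ τ) K) (D : MvPolynomial (σ ⊕ τ) K)
    (hJ : (satJac F).det ∣ D) (p : σ ⊕ τ → L) (hF : ∀ i, aeval p (F i) = 0)
    (hD : aeval p D ≠ 0) (h : MvPolynomial σ K) (N : ℕ)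
    (hh : D ^ N * rename Sum.inl h ∈ Ideal.span (Set.range F)) : h = 0 := by
  obtain ⟨H, hH⟩ := hJ
  -- vanishing at the point
  have hv : ∀ g : MvPolynomial (σ ⊕ τ) K, ∀ N : ℕ, D ^ N * g ∈ Ideal.span (Set.range F) →
      aeval p g = 0 := by
    intro g N hg
    have h1 : D ^ N * g ∈ RingHom.ker (aeval p : MvPolynomial (σ ⊕ τ) K →ₐ[K] L) := by
      refine (Ideal.span_le.2 ?_) hg
      rintro _ ⟨i, rfl⟩
      exact hF i
    rw [RingHom.mem_ker, map_mul, map_pow] at h1
    exact (mul_eq_zero.1 h1).resolve_left (pow_ne_zero _ hD)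
  have key : ∀ n : ℕ, ∀ h : MvPolynomial σ K, h.totalDegree ≤ n → ∀ N : ℕ,
      D ^ N * rename Sum.inl h ∈ Ideal.span (Set.range F) → h = 0 := by
    intro n
    induction n with
    | zero =>
      intro h hn N hN
      have h0 : h = C (coeff 0 h) := totalDegree_eq_zero_iff_eq_C.1 (Nat.le_zero.1 hn)
      have h1 := hv _ N hN
      rw [h0, rename_C, aeval_C, map_eq_zero] at h1
      rw [h0, h1, map_zero]
    | succ n ih =>
      intro h hn N hN
      have h2 : ∀ s, pderiv s h = 0 := by
        intro s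
        have h3 := satD_sat F D _ N hN s
        rw [satD_rename] at h3
        apply ih _ (sat_totalDegree h s n hn) (N + 2)
        have h4 := Ideal.mul_mem_left _ H h3
        have h5 : H * (D ^ (N + 1) * ((satJac F).det * rename Sum.inl (pderiv s h))) =
            D ^ (N + 2) * rename Sum.inl (pderiv s h) := by
          rw [pow_succ D (N + 1)]
          conv_rhs => rw [hH]
          rw [hH]
          ring
        rwa [h5] at h4
      have h0 := sat_const h h2
      have h1 := hv _ N hN
      rw [h0, rename_C, aeval_C, map_eq_zero] at h1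
      rw [h0, h1, map_zero]
  exact key _ h le_rfl N hh

end Sat

end Pool.Agent.CV
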