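import Pool.Agent.Lib_MP_1209e6_cv.Defs

/-! CY, piece SYS (1): the objects of `Defs` commute with ring homomorphisms; degrees. -/

set_option autoImplicit false

open MvPolynomial

namespace Pool.Agent.CV

section
variable {S S' : Type} [CommRing S] [CommRing S'] {n d r e : ℕ}

theorem sys_poly_map (φ : S →+* S') (c : Mon n d → S) :
    MvPolynomial.map φ (poly c) = poly (fun s => φ (c s)) := by
  unfold poly
  rw [map_sum]
  refine Finset.sum_congr rfl fun s _ => ?_
  rw [MvPolynomial.map_monomial]

theorem sys_line_map (φ : S →+* S') (x v : Fin n → S) (i j : Fin n) :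
    (line x v i j).map φ = line (fun l => φ (x l)) (fun l => φ (v l)) i j := by
  unfold line
  rw [Polynomial.map_add, Polynomial.map_mul, Polynomial.map_C, Polynomial.map_C,
    Polynomial.map_X, map_sub, map_mul]

theorem sys_res_map (φ : S →+* S') (f : MvPolynomial (Fin n) S) (x v : Fin n → S) (i : Fin n) :
    (res f x v i).map φ =
      res (MvPolynomial.map φ f) (fun l => φ (x l)) (fun l => φ (v l)) i := by
  unfold res
  induction f using MvPolynomial.induction_on with
  | C a =>
    rw [aeval_C, MvPolynomial.map_C, aeval_C, Polynomial.algebraMap_apply, Polynomial.map_C,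
      Polynomial.algebraMap_apply]
    rfl
  | add f g hf hg => rw [map_add, Polynomial.map_add, hf, hg, map_add, map_add]
  | mul_X f j hf =>
    rw [map_mul, Polynomial.map_mul, hf, aeval_X, map_mul, map_mul, MvPolynomial.map_X, aeval_X,
      sys_line_map]

theorem sys_GOf_map (φ : S →+* S') (y : Unk n r e → S) :
    (GOf y).map φ = GOf (fun u => φ (y u)) := by
  unfold GOf
  rw [Polynomial.map_add, Polynomial.map_one, Polynomial.map_sum]
  refine congrArg _ (Finset.sum_congr rfl fun i _ => ?_)
  rw [Polynomial.map_mul, Polynomial.map_pow, Polynomial.map_C, Polynomial.map_X]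

theorem sys_QOf_map (φ : S →+* S') (y : Unk n r e → S) :
    (QOf y).map φ = QOf (fun u => φ (y u)) := by
  unfold QOf
  rw [Polynomial.map_sum]
  refine Finset.sum_congr rfl fun i _ => ?_
  rw [Polynomial.map_mul, Polynomial.map_pow, Polynomial.map_C, Polynomial.map_X]

/-- The difference of the two sides of the system. -/
noncomputable def sysDef (m : ℕ) (c : Mon n d → S) (x : Fin n → S) (i : Fin n)
    (y : Unk n r e → S) : Polynomial S :=
  res (poly c) x (vOf y) i - GOf y ^ m * QOf y

theorem sysDef_map (φ : S →+* S') (m : ℕ) (c : Mon n d → S) (x : Fin n → S) (i : Fin n)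
    (y : Unk n r e → S) :
    (sysDef m c x i y).map φ =
      sysDef m (fun s => φ (c s)) (fun l => φ (x l)) i (fun u => φ (y u)) := by
  unfold sysDef
  rw [Polynomial.map_sub, Polynomial.map_mul, Polynomial.map_pow, sys_res_map, sys_poly_map,
    sys_GOf_map, sys_QOf_map]
  rfl

theorem isSol_iff_sysDef (m : ℕ) (c : Mon n d → S) (x : Fin n → S) (i : Fin n)
    (y : Unk n r e → S) :
    IsSol m (poly c) x i y ↔ y (Sum.inl i) - 1 = 0 ∧ sysDef m c x i y = 0 := by
  unfold IsSol sysDef
  rw [sub_eq_zero, sub_eq_zero]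
  rfl

theorem sys_res_natDegree_le (c : Mon n d → S) (x v : Fin n → S) (i : Fin n) :
    (res (poly c) x v i).natDegree ≤ d := by
  unfold res poly
  rw [map_sum]
  refine Polynomial.natDegree_sum_le_of_forall_le _ _ fun s _ => ?_
  rw [aeval_monomial]
  refine (Polynomial.natDegree_mul_le).trans ?_
  rw [Polynomial.algebraMap_apply, Polynomial.natDegree_C, zero_add]
  refine (Polynomial.natDegree_prod_le _ _).trans ?_
  refine le_trans (Finset.sum_le_sum (g := fun j => s.1 j) fun j _ => ?_) ?_
  · refine (Polynomial.natDegree_pow_le).trans ?_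
    have h1 : (line x v i j).natDegree ≤ 1 := by
      unfold line
      refine (Polynomial.natDegree_add_le _ _).trans (max_le ?_ ?_)
      · rw [Polynomial.natDegree_C]; exact Nat.zero_le _
      · refine (Polynomial.natDegree_mul_le).trans ?_
        rw [Polynomial.natDegree_C, add_zero]
        exact Polynomial.natDegree_X_le
    calc s.1 j * (line x v i j).natDegree ≤ s.1 j * 1 := Nat.mul_le_mul_left _ h1
      _ = s.1 j := mul_one _
  · have h2 := s.2
    rw [Finsupp.degree_apply] at h2
    exact h2

theorem sys_GOf_natDegree_le (y : Unk n r e → S) : (GOf y).natDegree ≤ r := by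
  unfold GOf
  refine (Polynomial.natDegree_add_le _ _).trans (max_le ?_ ?_)
  · rw [Polynomial.natDegree_one]; exact Nat.zero_le _
  · refine Polynomial.natDegree_sum_le_of_forall_le _ _ fun i _ => ?_
    exact (Polynomial.natDegree_C_mul_X_pow_le _ _).trans i.2

theorem sys_QOf_natDegree_le (y : Unk n r e → S) : (QOf y).natDegree ≤ e := by
  unfold QOf
  refine Polynomial.natDegree_sum_le_of_forall_le _ _ fun i _ => ?_
  exact (Polynomial.natDegree_C_mul_X_pow_le _ _).trans (Nat.lt_succ_iff.1 i.2)

theorem sysDef_natDegree_le (m : ℕ) (hd : m * r + e ≤ d) (c : Mon n d → S) (x : Fin n → S)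
    (i : Fin n) (y : Unk n r e → S) : (sysDef m c x i y).natDegree ≤ d := by
  unfold sysDef
  refine (Polynomial.natDegree_sub_le _ _).trans (max_le (sys_res_natDegree_le _ _ _ _) ?_)
  refine (Polynomial.natDegree_mul_le).trans
    (le_trans (Nat.add_le_add ?_ (sys_QOf_natDegree_le _)) hd)
  exact (Polynomial.natDegree_pow_le).trans (Nat.mul_le_mul_left _ (sys_GOf_natDegree_le _))

theorem sys_eq_zero (p : Polynomial S) (hp : p.natDegree ≤ d)
    (h : ∀ j : Fin (d + 1), p.coeff j = 0) : p = 0 := by
  ext j
  rw [Polynomial.coeff_zero]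
  by_cases hj : j ≤ d
  · exact h ⟨j, Nat.lt_succ_iff.2 hj⟩
  · exact Polynomial.coeff_eq_zero_of_natDegree_lt (lt_of_le_of_lt hp (not_le.1 hj))

end

end Pool.Agent.CV
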