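import Pool.Agent.Lib_MP_1209e6_cv.Gen
import Pool.Agent.Lib_MP_1209e6_cv.Point
import Pool.Agent.Lib_MP_1209e6_cv.SysNat

/-! PIECE SYS: the system as polynomials with rational coefficients; solutions at general parameters. -/

set_option autoImplicit false

open MvPolynomial TrivSqZeroExt

namespace Pool.Agent.CV

section
variable {n d r e : ℕ}

/-- The `n` systems as polynomials with rational coefficients. -/
noncomputable def sysF (m : ℕ) (l : Fin n × Option (Fin (d + 1))) :
    MvPolynomial ((Mon n d ⊕ Fin n) ⊕ (Fin n × Unk n r e)) ℚ :=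
  match l.2 with
  | none => X (Sum.inr (l.1, Sum.inl l.1)) - 1
  | some j => (sysDef m (fun s => X (Sum.inl (Sum.inl s))) (fun k => X (Sum.inl (Sum.inr k))) l.1
      (fun u => X (Sum.inr (l.1, u)))).coeff j

theorem sysF_iff {S : Type} [CommRing S] [Algebra ℚ S] (m : ℕ) (hd : m * r + e ≤ d)
    (a : (Mon n d ⊕ Fin n) ⊕ (Fin n × Unk n r e) → S) :
    (∀ l, aeval a (sysF m l) = 0) ↔
      ∀ i, IsSol m (poly (fun s => a (Sum.inl (Sum.inl s)))) (fun k => a (Sum.inl (Sum.inr k))) i
        (fun u => a (Sum.inr (i, u))) := by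
  have key : ∀ (i : Fin n) (j : Fin (d + 1)), aeval a (sysF m (i, some j)) =
      (sysDef m (fun s => a (Sum.inl (Sum.inl s))) (fun k => a (Sum.inl (Sum.inr k))) i
        (fun u => a (Sum.inr (i, u)))).coeff j := by
    intro i j
    have h1 := sysDef_map ((aeval a : MvPolynomial ((Mon n d ⊕ Fin n) ⊕ (Fin n × Unk n r e)) ℚ
        →ₐ[ℚ] S) : MvPolynomial ((Mon n d ⊕ Fin n) ⊕ (Fin n × Unk n r e)) ℚ →+* S) m
      (fun s : Mon n d => X (Sum.inl (Sum.inl s))) (fun k => X (Sum.inl (Sum.inr k))) i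
      (fun u : Unk n r e => X (Sum.inr (i, u)))
    have h2 := congrArg (fun p : Polynomial S => p.coeff (j : ℕ)) h1
    simp only [Polynomial.coeff_map, RingHom.coe_coe, aeval_X] at h2
    exact h2
  have key0 : ∀ i : Fin n, aeval a (sysF (r := r) (e := e) (d := d) m (i, none)) =
      a (Sum.inr (i, Sum.inl i)) - 1 := by
    intro i
    show aeval a (X (Sum.inr (i, Sum.inl i)) - 1) = _
    rw [map_sub, aeval_X, map_one]
  constructor
  · intro h i
    rw [isSol_iff_sysDef]
    refine ⟨?_, sys_eq_zero _ (sysDef_natDegree_le m hd _ _ _ _) fun j => ?_⟩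
    · rw [← key0 i]
      exact h (i, none)
    · rw [← key i j]
      exact h (i, some j)
  · rintro h ⟨i, l⟩
    have h1 := (isSol_iff_sysDef m _ _ i _).1 (h i)
    cases l with
    | none => rw [key0 i]; exact h1.1
    | some j => rw [key i j, h1.2, Polynomial.coeff_zero]

theorem sys_rigid_iff {Ω : Type} [Field Ω] [CharZero Ω] (m : ℕ) (hd : m * r + e ≤ d)
    (c : Mon n d → Ω) (x : Fin n → Ω) (y : Fin n × Unk n r e → Ω)
    (hy : ∀ i, IsSol m (poly c) x i (fun u => y (i, u))) :
    (∀ z : Fin n × Unk n r e → Ω,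
      (∀ l, aeval (Sum.elim (fun i => inl (Sum.elim c x i)) (dual y z)) (sysF (d := d) m l) = 0) →
        z = 0) ↔
      ∀ i, Rigid m (poly c) x i (fun u => y (i, u)) := by
  classical
  have hmap : MvPolynomial.map (inlHom Ω Ω) (poly c) = poly (fun s => (inl (c s) : DualNumber Ω)) :=
    sys_poly_map (inlHom Ω Ω) c
  have key : ∀ z : Fin n × Unk n r e → Ω,
      (∀ l, aeval (Sum.elim (fun i => inl (Sum.elim c x i)) (dual y z)) (sysF (d := d) m l) = 0) ↔
        ∀ i, IsSol m (MvPolynomial.map (inlHom Ω Ω) (poly c)) (fun j => inl (x j)) i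
          (dual (fun u => y (i, u)) (fun u => z (i, u))) := by
    intro z
    rw [sysF_iff m hd, hmap]
    exact Iff.rfl
  constructor
  · intro h i z hz
    have h1 := h (fun p => if p.1 = i then z p.2 else 0) ((key _).2 fun i' => ?_)
    · funext u
      have h2 := congrFun h1 (i, u)
      simpa using h2
    · by_cases hi : i' = i
      · subst hi
        simpa using hz
      · have h3 : (fun u : Unk n r e => if ((i', u) : Fin n × Unk n r e).1 = i then z u else 0) =
            fun _ => 0 := by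
          funext u
          exact if_neg hi
        show IsSol m _ _ i' (dual (fun u => y (i', u))
          (fun u : Unk n r e => if ((i', u) : Fin n × Unk n r e).1 = i then z u else 0))
        rw [h3]
        have h4 : dual (fun u => y (i', u)) (fun _ : Unk n r e => (0 : Ω)) =
            fun u => inlHom Ω Ω (y (i', u)) := by
          funext u
          show inl (y (i', u)) + inr 0 = _
          rw [inr_zero, add_zero]
          rfl
        rw [h4, hmap]
        have h5 := (isSol_iff_sysDef m _ _ i' _).1 (hy i')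
        refine (isSol_iff_sysDef m _ _ i' _).2 ⟨?_, ?_⟩
        · have h6 := congrArg (inlHom Ω Ω) h5.1
          rw [map_sub, map_one, map_zero] at h6
          exact h6
        · have h7 := sysDef_map (inlHom Ω Ω) m c x i' (fun u => y (i', u))
          rw [h5.2, Polynomial.map_zero] at h7
          exact h7.symm
  · intro h z hz
    have h1 := (key z).1 hz
    funext p
    obtain ⟨i, u⟩ := p
    exact congrFun (h i (fun u => z (i, u)) (h1 i)) u

end

/-- Proof. `exists_gen` with `ι = Mon n d ⊕ Fin n`, `κ = Fin n × Unk n r e`,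
`μ = Fin n × Option (Fin (d + 1))` (`n + r + e + 1 = d + 2`): in the ring `MvPolynomial (ι ⊕ κ) ℚ` with the
generic `c`, `x`, `y`, `F (i, none) = v_i - 1` and `F (i, some l)` is the coefficient of `X ^ l` in
`res (poly c) x (vOf (y i)) i - GOf (y i) ^ m * QOf (y i)` (a polynomial of degree `≤ d`), `d` is the
determinant of the matrix `vOf (y i) j`. All definitions in `Defs` commute with ring homomorphisms. -/
theorem exists_sol (m r e n d : ℕ) (hm : 2 ≤ m) (he : 1 ≤ e) (hn : n = (m - 1) * r + 1)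
    (hd : d = m * r + e) (hd2 : n + 1 ≤ d) :
    ∃ R : MvPolynomial (Mon n d ⊕ Fin n) ℚ, R ≠ 0 ∧
      ∀ (Ω : Type) [Field Ω] [CharZero Ω] [IsAlgClosed Ω] (c : Mon n d → Ω) (x : Fin n → Ω),
        aeval (Sum.elim c x) R ≠ 0 → ∃ y : Fin n → Unk n r e → Ω,
          (∀ i, IsSol m (poly c) x i (y i)) ∧ (∀ i, Rigid m (poly c) x i (y i)) ∧
            (Matrix.of fun i => vOf (y i)).det ≠ 0 := by
  classical
  obtain ⟨c₀, y₀, hs₀, hr₀, hv₀⟩ := exists_point m r e n d hm he hn hd hd2
  have hd' : m * r + e ≤ d := hd.ge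
  -- the determinant polynomial
  let M : Matrix (Fin n) (Fin n) (MvPolynomial ((Mon n d ⊕ Fin n) ⊕ (Fin n × Unk n r e)) ℚ) :=
    Matrix.of fun i j => X (Sum.inr (i, Sum.inl j))
  have hM : ∀ (Ω : Type) [Field Ω] [CharZero Ω] (a : Mon n d ⊕ Fin n → Ω)
      (y : Fin n × Unk n r e → Ω), aeval (Sum.elim a y) M.det =
        (Matrix.of fun i => vOf (fun u => y (i, u))).det := by
    intro Ω _ _ a y
    rw [AlgHom.map_det]
    refine congrArg Matrix.det ?_
    ext i j
    show aeval (Sum.elim a y) (X (Sum.inr (i, Sum.inl j))) = _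
    rw [aeval_X]
    rfl
  have hcard : Nat.card (Fin n × Unk n r e) = Nat.card (Fin n × Option (Fin (d + 1))) := by
    rw [Nat.card_eq_fintype_card, Nat.card_eq_fintype_card]
    simp only [Fintype.card_prod, Fintype.card_sum, Fintype.card_fin, Fintype.card_option]
    have h1 : n + (r + (e + 1)) = d + 1 + 1 := by
      obtain ⟨k, rfl⟩ : ∃ k, m = k + 1 := ⟨m - 1, by omega⟩
      rw [hd, hn, Nat.add_sub_cancel]
      ring
    rw [h1]
  obtain ⟨R, hR, hgen⟩ := exists_gen (ι := Mon n d ⊕ Fin n) (κ := Fin n × Unk n r e)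
    (μ := Fin n × Option (Fin (d + 1))) hcard (sysF (d := d) m) M.det
    (Sum.elim c₀ (fun _ => 0)) (fun p => y₀ p.1 p.2)
    ((sysF_iff m hd' (Sum.elim (Sum.elim c₀ fun _ => 0) fun p => y₀ p.1 p.2)).2 hs₀)
    ((sys_rigid_iff m hd' c₀ (fun _ => 0) (fun p => y₀ p.1 p.2) hs₀).2 hr₀)
    (by rw [hM ℂ (Sum.elim c₀ fun _ => 0) (fun p => y₀ p.1 p.2)]; exact hv₀)
  refine ⟨R, hR, ?_⟩
  intro Ω _ _ _ c x hcx
  obtain ⟨y, hy, hrig, hdet⟩ := hgen Ω (Sum.elim c x) hcx
  have hy' := (sysF_iff m hd' (Sum.elim (Sum.elim c x) y)).1 hy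
  refine ⟨fun i u => y (i, u), hy', (sys_rigid_iff m hd' c x y hy').1 hrig, ?_⟩
  rw [hM Ω (Sum.elim c x) y] at hdet
  exact hdet

end Pool.Agent.CV
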