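import Pool.Agent.Lib_MP_1209e6_cv.Defs

/-! PIECE SYS: the system commutes with ring homomorphisms; degrees. -/

set_option autoImplicit false

open MvPolynomial TrivSqZeroExt

namespace Pool.Agent.CV

section

variable {S S' : Type*} [CommRing S] [CommRing S'] {n r e d : ℕ} (φ : S →+* S')

theorem sys_map_poly (c : Mon n d → S) : map φ (poly c) = poly (fun s => φ (c s)) := by
  simp [poly, map_monomial]

theorem sys_map_line (x v : Fin n → S) (i j : Fin n) :
    (line x v i j).map φ = line (fun k => φ (x k)) (fun k => φ (v k)) i j := by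
  simp [line]

theorem sys_map_res (f : MvPolynomial (Fin n) S) (x v : Fin n → S) (i : Fin n) :
    (res f x v i).map φ = res (map φ f) (fun k => φ (x k)) (fun k => φ (v k)) i := by
  unfold res
  induction f using MvPolynomial.induction_on with
  | C a => simp
  | add p q hp hq => rw [map_add, Polynomial.map_add, hp, hq, map_add, map_add]
  | mul_X p j hp =>
    rw [map_mul, Polynomial.map_mul, hp, aeval_X, sys_map_line, map_mul, map_mul, map_X, aeval_X]

theorem sys_map_G (y : Unk n r e → S) : (GOf y).map φ = GOf (fun k => φ (y k)) := by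
  simp [GOf, Polynomial.map_sum]

theorem sys_map_Q (y : Unk n r e → S) : (QOf y).map φ = QOf (fun k => φ (y k)) := by
  simp [QOf, Polynomial.map_sum]

theorem sys_line_natDegree (x v : Fin n → S) (i j : Fin n) : (line x v i j).natDegree ≤ 1 := by
  unfold line
  refine (Polynomial.natDegree_add_le _ _).trans (max_le ?_ ?_)
  · rw [Polynomial.natDegree_C]
    exact Nat.zero_le _
  · refine Polynomial.natDegree_mul_le.trans ?_
    have := Polynomial.natDegree_X_le (R := S)
    simp only [Polynomial.natDegree_C, add_zero]
    exact this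

theorem sys_res_natDegree (c : Mon n d → S) (x v : Fin n → S) (i : Fin n) :
    (res (poly c) x v i).natDegree ≤ d := by
  unfold res poly
  rw [map_sum]
  refine Polynomial.natDegree_sum_le_of_forall_le _ _ (fun s _ => ?_)
  rw [aeval_monomial]
  refine Polynomial.natDegree_mul_le.trans ?_
  have h1 : (algebraMap S (Polynomial S) (c s)).natDegree = 0 := Polynomial.natDegree_C _
  rw [h1, zero_add]
  refine le_trans ?_ s.2
  rw [Finsupp.prod, Finsupp.degree_apply]
  refine (Polynomial.natDegree_prod_le _ _).trans (Finset.sum_le_sum fun j _ => ?_)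
  refine Polynomial.natDegree_pow_le.trans ?_
  calc s.1 j * (line x v i j).natDegree ≤ s.1 j * 1 :=
        Nat.mul_le_mul_left _ (sys_line_natDegree x v i j)
    _ = s.1 j := mul_one _

theorem sys_G_natDegree (y : Unk n r e → S) : (GOf y).natDegree ≤ r := by
  unfold GOf
  refine (Polynomial.natDegree_add_le _ _).trans (max_le ?_ ?_)
  · simp
  · refine Polynomial.natDegree_sum_le_of_forall_le _ _ (fun k _ => ?_)
    refine (Polynomial.natDegree_C_mul_X_pow_le _ _).trans ?_
    have := k.2
    omega

theorem sys_Q_natDegree (y : Unk n r e → S) : (QOf y).natDegree ≤ e := by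
  unfold QOf
  refine Polynomial.natDegree_sum_le_of_forall_le _ _ (fun k _ => ?_)
  refine (Polynomial.natDegree_C_mul_X_pow_le _ _).trans ?_
  have := k.2
  omega

theorem sys_GQ_natDegree (m : ℕ) (y : Unk n r e → S) : (GOf y ^ m * QOf y).natDegree ≤ m * r + e := by
  refine Polynomial.natDegree_mul_le.trans (add_le_add ?_ (sys_Q_natDegree y))
  exact Polynomial.natDegree_pow_le.trans (Nat.mul_le_mul_left _ (sys_G_natDegree y))

theorem sys_isSol_iff (m : ℕ) (hd : d = m * r + e) (c : Mon n d → S) (x : Fin n → S) (i : Fin n)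
    (y : Unk n r e → S) : IsSol m (poly c) x i y ↔
      vOf y i - 1 = 0 ∧ ∀ l : Fin (d + 1),
        (res (poly c) x (vOf y) i - GOf y ^ m * QOf y).coeff l = 0 := by
  unfold IsSol
  rw [sub_eq_zero]
  refine and_congr_right fun _ => ⟨fun h l => ?_, fun h => ?_⟩
  · rw [h, sub_self, Polynomial.coeff_zero]
  · rw [← sub_eq_zero]
    ext l
    rw [Polynomial.coeff_zero]
    by_cases hl : l < d + 1
    · exact h ⟨l, hl⟩
    · apply Polynomial.coeff_eq_zero_of_natDegree_lt
      refine lt_of_le_of_lt (Polynomial.natDegree_sub_le _ _) ?_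
      refine max_lt ?_ ?_
      · have := sys_res_natDegree c x (vOf y) i
        omega
      · have := sys_GQ_natDegree m y
        omega

end

end Pool.Agent.CV
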